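import Pool.Agent.W2helper34.PA.Tent
import Pool.Agent.W2helper34.AD.Main

/-!
# Proper actions on stably embedded contractible spaces and the van Kampen obstruction
-/

set_option autoImplicit false
set_option linter.unusedSectionVars false

namespace Pool.Agent.W2helper34.PA

open Set Topology Filter
open Pool.Agent.W555.KS Pool.Agent.Y131.KS Pool.Agent.R782.Bal Pool.Agent.W2helper34.AD Pool.Agent.N504.RS
open Pool.Agent.TH652.Join (join)

/-- the orthants belonging to disjoint cliques diverge -/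
def Far {V Γ : Type} [Group Γ] [Fintype V] (J : SimpleGraph V) (a : V → Γ) : Prop :=
  ∀ F : Set Γ, F.Finite → ∃ B : ℕ, ∀ p q : V → ℕ, J.IsClique {v | p v ≠ 0} → J.IsClique {v | q v ≠ 0} →
    (∀ v, p v = 0 ∨ q v = 0) → (gp a q)⁻¹ * gp a p ∈ F → ∀ v, p v ≤ B ∧ q v ≤ B

/-- the join of `r` copies of three points -/
def KT (r : ℕ) : SimpleGraph (Fin r × Fin 3) where
  Adj x y := x.1 ≠ y.1
  symm := ⟨fun _ _ h => h.symm⟩
  loopless := ⟨fun _ h => h rfl⟩

/-- the embedding used for the desuspension -/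
def emb3 (V : Type) (r : ℕ) : (V ⊕ Fin r × Fin 3) ⊕ Fin 3 ↪ V ⊕ Fin (r + 1) × Fin 3 where
  toFun x := match x with
    | Sum.inl (Sum.inl v) => Sum.inl v
    | Sum.inl (Sum.inr y) => Sum.inr (y.1.castSucc, y.2)
    | Sum.inr a => Sum.inr (Fin.last r, a)
  inj' := by
    rintro ((v | ⟨c, a⟩) | a) ((w | ⟨d, b⟩) | b) h
    · simp only [Sum.inl.injEq] at h ⊢; exact h
    · simp at h
    · simp at h
    · simp at h
    · simp only [Sum.inr.injEq, Prod.mk.injEq, Fin.castSucc_inj] at h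
      rw [h.1, h.2]
    · simp only [Sum.inr.injEq, Prod.mk.injEq] at h
      exact absurd h.1 (Fin.castSucc_lt_last c).ne
    · simp at h
    · simp only [Sum.inr.injEq, Prod.mk.injEq] at h
      exact absurd h.1.symm (Fin.castSucc_lt_last d).ne
    · simp only [Sum.inr.injEq, Prod.mk.injEq] at h
      rw [h.2]

/-- desuspension -/
theorem obs_desusp (r : ℕ) : ∀ {V : Type} [Finite V] {G : SimpleGraph V} {i : ℕ},
    Obs (join G (KT r)) (2 * i + 2 * r) → Obs G (2 * i) := by
  induction r with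
  | zero =>
    intro V _ G i h
    exact obs_mono h Function.Embedding.inl fun a b hab => hab
  | succ r ih =>
    intro V _ G i h
    have h1 : Obs (join G (KT (r + 1))) (2 * (i + r) + 2 * 1) := by
      have : 2 * (i + r) + 2 * 1 = 2 * i + 2 * (r + 1) := by ring
      rw [this]; exact h
    have k1 : ∀ x y, (join G (KT r)).Adj x y →
        (join G (KT (r + 1))).Adj (emb3 V r (Sum.inl x)) (emb3 V r (Sum.inl y)) := by
      rintro (v | ⟨c, a⟩) (w | ⟨d, b⟩) hab
      · exact hab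
      · trivial
      · trivial
      · intro h4
        exact hab (Fin.castSucc_injective r h4)
    have k2 : ∀ x y, (⊥ : SimpleGraph (Fin 3)).Adj x y →
        (join G (KT (r + 1))).Adj (emb3 V r (Sum.inr x)) (emb3 V r (Sum.inr y)) := by
      intro x y hxy
      exact absurd hxy (by simp)
    have k3 : ∀ x y, (join G (KT (r + 1))).Adj (emb3 V r (Sum.inl x)) (emb3 V r (Sum.inr y)) := by
      rintro (v | ⟨c, a⟩) b
      · trivial
      · exact (Fin.castSucc_lt_last c).ne
    rcases obs_join (emb3 V r) h1 k1 k2 k3 with h3 | h3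
    · exact ih (by rw [← mul_add]; exact h3)
    · exact absurd h3 (obs_three (Equiv.refl (Fin 3)))

/-- A weak form of the statement that `M` is stably embedded in codimension zero. -/
def StabEmb (n : ℕ) (M : Type) [TopologicalSpace M] : Prop :=
  ∀ C : Set M, IsCompact C → ∃ (r : ℕ) (F : M × (Fin r × Fin 3 → ℝ) → (Fin (n + 2 * r) → ℝ)),
    ContinuousOn F (C ×ˢ {y | ∀ i, 0 ≤ y i ∧ y i ≤ 1}) ∧
    ∀ a ∈ C, ∀ b ∈ C, ∀ y y' : Fin r × Fin 3 → ℝ, (∀ i, 0 ≤ y i ∧ y i ≤ 1) → (∀ i, 0 ≤ y' i ∧ y' i ≤ 1) →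
      (KT r).IsClique {i | y i ≠ 0} → (KT r).IsClique {i | y' i ≠ 0} → (∀ i, y i = 0 ∨ y' i = 0) →
      F (a, y) = F (b, y') → a = b ∧ y = 0 ∧ y' = 0

section

variable {Γ V M : Type} [Group Γ] [Fintype V] [DecidableEq V] [TopologicalSpace M] [MulAction Γ M]
  [ContinuousConstSMul Γ M]

/-- the map of the cone over the join of `V` with `KT r` -/
noncomputable def GG {d m r : ℕ} (κ : Contr M) (a : V → Γ) (T : ℕ) (e : V ⊕ Fin r × Fin 3 ≃ Fin m)
    (F : M × (Fin r × Fin 3 → ℝ) → (Fin d → ℝ)) (η : Fin m → ℝ) : Fin d → ℝ :=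
  F (hmap κ a T (fun v => (T : ℝ) * η (e (Sum.inl v))), fun y => η (e (Sum.inr y)))

theorem GG_cont {d m r : ℕ} (κ : Contr M) (a : V → Γ) (T : ℕ) (e : V ⊕ Fin r × Fin 3 ≃ Fin m)
    {F : M × (Fin r × Fin 3 → ℝ) → (Fin d → ℝ)}
    (hF : ContinuousOn F ((hmap κ a T '' {x | ∀ v, 0 ≤ x v ∧ x v ≤ T}) ×ˢ {y | ∀ i, 0 ≤ y i ∧ y i ≤ 1})) :
    ContinuousOn (GG κ a T e F) {η | ∀ i, 0 ≤ η i ∧ η i ≤ 1} := by
  have hm : ∀ η ∈ {η : Fin m → ℝ | ∀ i, 0 ≤ η i ∧ η i ≤ 1},
      (fun v : V => (T : ℝ) * η (e (Sum.inl v))) ∈ {x : V → ℝ | ∀ v, 0 ≤ x v ∧ x v ≤ T} := by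
    intro η hη v
    have h1 := hη (e (Sum.inl v))
    have h2 : (0 : ℝ) ≤ T := Nat.cast_nonneg T
    exact ⟨mul_nonneg h2 h1.1, by nlinarith⟩
  refine hF.comp (s := {η | ∀ i, 0 ≤ η i ∧ η i ≤ 1})
    (f := fun η : Fin m → ℝ => (hmap κ a T (fun v => (T : ℝ) * η (e (Sum.inl v))), fun y => η (e (Sum.inr y))))
    (ContinuousOn.prodMk ?_ ?_) ?_
  · refine (hmap_cont κ a T).comp (s := {η | ∀ i, 0 ≤ η i ∧ η i ≤ 1})
      (f := fun (η : Fin m → ℝ) (v : V) => (T : ℝ) * η (e (Sum.inl v))) ?_ hm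
    refine Continuous.continuousOn ?_
    exact continuous_pi fun v => continuous_const.mul (continuous_apply _)
  · refine Continuous.continuousOn ?_
    exact continuous_pi fun i => continuous_apply _
  · intro η hη
    exact ⟨⟨_, hm η hη, rfl⟩, fun i => hη _⟩

theorem odd_of_action [ContractibleSpace M] [ProperlyDiscontinuousSMul Γ M] {n : ℕ} (J : SimpleGraph V)
    (a : V → Γ) (hcomm : ∀ u v, J.Adj u v → Commute (a u) (a v)) (hfar : Far J a) (hM : StabEmb n M) :
    ∃ r : ℕ, ∀ (m : ℕ) (e : V ⊕ Fin r × Fin 3 ≃ Fin m), OddMap (clF (join J (KT r)) e) (n + 2 * r) := by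
  classical
  obtain ⟨κ⟩ := exists_contr M
  have hC := C0_compact κ a
  obtain ⟨B, hB⟩ := hfar _ (ProperlyDiscontinuousSMul.finite_disjoint_inter_image (Γ := Γ) hC hC)
  set T : ℕ := (B + 1) * Fintype.card V with hT
  have hK : IsCompact (hmap κ a T '' {x : V → ℝ | ∀ v, 0 ≤ x v ∧ x v ≤ T}) := by
    refine IsCompact.image_of_continuousOn ?_ (hmap_cont κ a T)
    have h1 : {x : V → ℝ | ∀ v, 0 ≤ x v ∧ x v ≤ T} = Set.pi Set.univ fun _ => Icc (0 : ℝ) T := by
      ext x
      constructor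
      · intro hx v _
        exact hx v
      · intro hx v
        exact hx v (Set.mem_univ v)
    rw [h1]
    exact isCompact_univ_pi fun _ => isCompact_Icc
  obtain ⟨r, F, hFc, hF⟩ := hM _ hK
  refine ⟨r, fun m e => ?_⟩
  have hcont := GG_cont κ a T e hFc
  have hbd : ∀ ξ ∈ dJoin (clF (join J (KT r)) e), ∀ i, |ξ i| ≤ 1 := by
    intro ξ hξ i
    rw [← hξ.1]
    exact Finset.single_le_sum (f := fun i => |ξ i|) (fun i _ => abs_nonneg _) (Finset.mem_univ i)
  refine ⟨fun ξ => GG κ a T e F (fun i => max (ξ i) 0) - GG κ a T e F (fun i => max (-ξ i) 0), ?_, ?_⟩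
  · refine ContinuousOn.sub ?_ ?_
    · refine hcont.comp (s := dJoin (clF (join J (KT r)) e))
        (f := fun (ξ : Fin m → ℝ) i => max (ξ i) 0) ?_ ?_
      · exact (continuous_pi fun i => (continuous_apply i).max continuous_const).continuousOn
      · intro ξ hξ i
        exact ⟨le_max_right _ _, max_le ((le_abs_self _).trans (hbd ξ hξ i)) zero_le_one⟩
    · refine hcont.comp (s := dJoin (clF (join J (KT r)) e))
        (f := fun (ξ : Fin m → ℝ) i => max (-ξ i) 0) ?_ ?_
      · exact (continuous_pi fun i => (continuous_apply i).neg.max continuous_const).continuousOn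
      · intro ξ hξ i
        exact ⟨le_max_right _ _, max_le ((neg_le_abs _).trans (hbd ξ hξ i)) zero_le_one⟩
  · intro ξ hξ
    refine ⟨by simp only [Pi.neg_apply, neg_neg]; abel, ?_⟩
    intro h0
    have hbdξ := hbd ξ hξ
    obtain ⟨hs, hp, hq⟩ := hξ
    rw [mem_clF] at hp hq
    have hpa : ∀ x y, 0 < ξ (e x) → 0 < ξ (e y) → x ≠ y → (join J (KT r)).Adj x y := by
      intro x y hx hy hxy
      exact hp (x := x) (by
        rw [Finset.mem_coe, Finset.mem_map_equiv, Equiv.symm_symm, Finset.mem_filter]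
        exact ⟨Finset.mem_univ _, hx⟩) (y := y) (by
        rw [Finset.mem_coe, Finset.mem_map_equiv, Equiv.symm_symm, Finset.mem_filter]
        exact ⟨Finset.mem_univ _, hy⟩) hxy
    have hqa : ∀ x y, ξ (e x) < 0 → ξ (e y) < 0 → x ≠ y → (join J (KT r)).Adj x y := by
      intro x y hx hy hxy
      exact hq (x := x) (by
        rw [Finset.mem_coe, Finset.mem_map_equiv, Equiv.symm_symm, Finset.mem_filter]
        exact ⟨Finset.mem_univ _, hx⟩) (y := y) (by
        rw [Finset.mem_coe, Finset.mem_map_equiv, Equiv.symm_symm, Finset.mem_filter]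
        exact ⟨Finset.mem_univ _, hy⟩) hxy
    have hT0 : (0 : ℝ) ≤ T := Nat.cast_nonneg T
    have hrange : ∀ t : ℝ, |t| ≤ 1 → 0 ≤ (T : ℝ) * max t 0 ∧ (T : ℝ) * max t 0 ≤ T := by
      intro t ht
      have h3 : (0 : ℝ) ≤ max t 0 := le_max_right _ _
      have h4 : max t 0 ≤ 1 := max_le ((le_abs_self _).trans ht) zero_le_one
      exact ⟨mul_nonneg hT0 h3, by nlinarith⟩
    have hpos1 : ∀ t : ℝ, max t 0 ≠ 0 → 0 < t := by
      intro t h
      by_contra h3
      exact h (max_eq_right (not_lt.mp h3))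
    have h1 := hF _ ⟨_, fun v => hrange _ (hbdξ (e (Sum.inl v))), rfl⟩ _
      ⟨_, fun v => hrange (-ξ (e (Sum.inl v))) (by rw [abs_neg]; exact hbdξ _), rfl⟩
      (fun y => max (ξ (e (Sum.inr y))) 0) (fun y => max (-ξ (e (Sum.inr y))) 0)
      (fun y => ⟨le_max_right _ _, max_le ((le_abs_self _).trans (hbdξ _)) zero_le_one⟩)
      (fun y => ⟨le_max_right _ _, max_le ((neg_le_abs _).trans (hbdξ _)) zero_le_one⟩)
      (fun x hx y hy hxy => hpa (Sum.inr x) (Sum.inr y) (hpos1 _ hx) (hpos1 _ hy) (by simpa using hxy))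
      (fun x hx y hy hxy => hqa (Sum.inr x) (Sum.inr y) (by linarith [hpos1 _ hx]) (by linarith [hpos1 _ hy])
        (by simpa using hxy))
      (fun y => by
        rcases le_total (ξ (e (Sum.inr y))) 0 with h | h
        · left; exact max_eq_right h
        · right; exact max_eq_right (by linarith))
      (sub_eq_zero.mp h0)
    obtain ⟨h1, h2, h2'⟩ := h1
    have hz : ∀ y, ξ (e (Sum.inr y)) = 0 := by
      intro y
      have k1 : max (ξ (e (Sum.inr y))) 0 = 0 := congrFun h2 y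
      have k2 : max (-ξ (e (Sum.inr y))) 0 = 0 := congrFun h2' y
      have k3 := le_max_left (ξ (e (Sum.inr y))) 0
      have k4 := le_max_left (-ξ (e (Sum.inr y))) 0
      linarith
    have hsum : ∑ v : V, |ξ (e (Sum.inl v))| = 1 := by
      rw [← hs, ← Equiv.sum_comp e, Fintype.sum_sum_type]
      simp [hz]
    -- the cliques
    have hadj : ∀ u v, (0 < ξ (e (Sum.inl u)) ∧ 0 < ξ (e (Sum.inl v))) ∨
        (ξ (e (Sum.inl u)) < 0 ∧ ξ (e (Sum.inl v)) < 0) → u ≠ v → J.Adj u v := by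
      intro u v h huv
      rcases h with h | h
      · exact hpa (Sum.inl u) (Sum.inl v) h.1 h.2 (by simpa using huv)
      · exact hqa (Sum.inl u) (Sum.inl v) h.1 h.2 (by simpa using huv)
    have hposne : ∀ t : ℝ, (T : ℝ) * max t 0 ≠ 0 → 0 < t := by
      intro t h
      by_contra h3
      exact h (by rw [max_eq_right (not_lt.mp h3), mul_zero])
    have hcm : ∀ u v, J.Adj u v ∨ u = v → Commute (a u) (a v) := by
      intro u v h
      rcases h with h | h
      · exact hcomm u v h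
      · rw [h]
    obtain ⟨y1, hy1, k1⟩ := hmap_mem κ a T (x := fun v => (T : ℝ) * max (ξ (e (Sum.inl v))) 0)
      (fun v => hrange _ (hbdξ _)) (fun u v hu hv => hcm u v (by
        by_cases huv : u = v
        · exact Or.inr huv
        · exact Or.inl (hadj u v (Or.inl ⟨hposne _ hu, hposne _ hv⟩) huv)))
    obtain ⟨y2, hy2, k2⟩ := hmap_mem κ a T (x := fun v => (T : ℝ) * max (-ξ (e (Sum.inl v))) 0)
      (fun v => hrange _ (by rw [abs_neg]; exact hbdξ _)) (fun u v hu hv => hcm u v (by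
        by_cases huv : u = v
        · exact Or.inr huv
        · have h3 := hposne _ hu
          have h4 := hposne _ hv
          exact Or.inl (hadj u v (Or.inr ⟨by linarith, by linarith⟩) huv)))
    rw [k1, k2] at h1
    set p : V → ℕ := fun v => ⌊(T : ℝ) * max (ξ (e (Sum.inl v))) 0⌋₊ with hpd
    set q : V → ℕ := fun v => ⌊(T : ℝ) * max (-ξ (e (Sum.inl v))) 0⌋₊ with hqd
    have hp0 : ∀ v, p v ≠ 0 → 0 < ξ (e (Sum.inl v)) := by
      intro v hv
      refine hposne _ fun h3 => hv ?_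
      simp only [hpd, h3, Nat.floor_zero]
    have hq0 : ∀ v, q v ≠ 0 → ξ (e (Sum.inl v)) < 0 := by
      intro v hv
      have := hposne (-ξ (e (Sum.inl v))) fun h3 => hv (by simp only [hqd, h3, Nat.floor_zero])
      linarith
    have hF' : (gp a q)⁻¹ * gp a p ∈ {γ : Γ | (((γ • ·) '' C0 κ a) ∩ C0 κ a).Nonempty} := by
      refine ⟨y2, ⟨y1, hy1, ?_⟩, hy2⟩
      change ((gp a q)⁻¹ * gp a p) • y1 = y2
      rw [mul_smul, h1, inv_smul_smul]
    have hBB := hB p q (fun u hu v hv huv => hadj u v (Or.inl ⟨hp0 u hu, hp0 v hv⟩) huv)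
      (fun u hu v hv huv => hadj u v (Or.inr ⟨hq0 u hu, hq0 v hv⟩) huv) (fun v => by
        by_contra h3
        rw [not_or] at h3
        exact lt_asymm (hp0 v h3.1) (hq0 v h3.2)) hF'
    -- all the coordinates are small
    have hsmall : ∀ v, (T : ℝ) * |ξ (e (Sum.inl v))| < B + 1 := by
      intro v
      have h3 := hBB v
      have h4 : (T : ℝ) * max (ξ (e (Sum.inl v))) 0 < B + 1 := by
        refine (Nat.lt_floor_add_one _).trans_le ?_
        have : ((p v : ℕ) : ℝ) ≤ B := by exact_mod_cast h3.1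
        linarith
      have h5 : (T : ℝ) * max (-ξ (e (Sum.inl v))) 0 < B + 1 := by
        refine (Nat.lt_floor_add_one _).trans_le ?_
        have : ((q v : ℕ) : ℝ) ≤ B := by exact_mod_cast h3.2
        linarith
      rcases le_total 0 (ξ (e (Sum.inl v))) with h6 | h6
      · rw [max_eq_left h6] at h4
        rwa [abs_of_nonneg h6]
      · rw [max_eq_left (by linarith)] at h5
        rwa [abs_of_nonpos h6]
    have hne : (Finset.univ : Finset V).Nonempty := by
      by_contra h3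
      rw [Finset.not_nonempty_iff_eq_empty] at h3
      rw [h3, Finset.sum_empty] at hsum
      exact zero_ne_one hsum
    have h7 : (T : ℝ) * ∑ v : V, |ξ (e (Sum.inl v))| < T := by
      rw [Finset.mul_sum]
      calc ∑ v : V, (T : ℝ) * |ξ (e (Sum.inl v))| < ∑ _v : V, ((B : ℝ) + 1) :=
            Finset.sum_lt_sum_of_nonempty hne fun v _ => hsmall v
        _ = T := by
            rw [Finset.sum_const, Finset.card_univ, nsmul_eq_mul, hT]
            push_cast
            ring
    rw [hsum, mul_one] at h7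
    exact lt_irrefl _ h7

/-- **the van Kampen obstruction vanishes** -/
theorem obs_of_action [ContractibleSpace M] [ProperlyDiscontinuousSMul Γ M] {n : ℕ} (J : SimpleGraph V)
    (a : V → Γ) (hcomm : ∀ u v, J.Adj u v → Commute (a u) (a v)) (hfar : Far J a) (hM : StabEmb n M)
    (i : ℕ) (hi : n < 2 * i) : Obs J (2 * i) := by
  obtain ⟨r, hr⟩ := odd_of_action J a hcomm hfar hM
  have h1 : Obs (join J (KT r)) (n + 2 * r + 1) := by
    intro m e
    exact vk_of_vk2 (vk2_of_odd (clF_cx _ e) (hr m e))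
  exact obs_desusp r (obs_le h1 (by omega))

end

end Pool.Agent.W2helper34.PA
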