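import Pool.Agent.W2helper34.PA.ArtinDef
import Pool.Agent.W2helper34.PA.Stab

/-!
# Orthants in right-angled Artin groups
-/

set_option autoImplicit false
set_option linter.unusedSectionVars false

namespace Pool.Agent.W2helper34.PA

open Pool.Agent.W2helper34.AD

/-- the generators -/
noncomputable def gA {U : Type} (L : SimpleGraph U) (u : U) : Artin L := PresentedGroup.of u

theorem gA_comm {U : Type} {L : SimpleGraph U} {u v : U} (h : L.Adj u v) : Commute (gA L u) (gA L v) := by
  have h1 : (PresentedGroup.mk (relA L)) (FreeGroup.of u * FreeGroup.of v * (FreeGroup.of u)⁻¹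
      * (FreeGroup.of v)⁻¹) = 1 := by
    refine PresentedGroup.one_of_mem ?_
    exact ⟨u, v, h, rfl⟩
  rw [map_mul, map_mul, map_mul, map_inv, map_inv] at h1
  have h2 : gA L u * gA L v * (gA L u)⁻¹ * (gA L v)⁻¹ = 1 := h1
  have h3 := mul_inv_eq_one.mp h2
  have h4 := mul_inv_eq_iff_eq_mul.mp h3
  exact h4

open Classical in
/-- the homomorphism which counts the exponent of `v` -/
noncomputable def evA {U : Type} (L : SimpleGraph U) (v : U) : Artin L →* Multiplicative ℤ :=
  PresentedGroup.toGroup (rels := relA L) (f := fun u => if u = v then Multiplicative.ofAdd 1 else 1) (by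
    rintro x ⟨a, b, _, rfl⟩
    rw [map_mul, map_mul, map_mul, map_inv, map_inv]
    rw [mul_comm (FreeGroup.lift _ (FreeGroup.of a)), mul_inv_cancel_right, mul_inv_cancel])

open Classical in
theorem evA_gen {U : Type} (L : SimpleGraph U) (v u : U) :
    evA L v (gA L u) = Multiplicative.ofAdd (if u = v then (1 : ℤ) else 0) := by
  unfold evA gA
  rw [PresentedGroup.toGroup.of]
  split_ifs
  · rfl
  · rfl

theorem list_ev {ι : Type} {H : Type} [Group H] (ψ : H →* Multiplicative ℤ) (b : ι → H) (c : ι → ℤ)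
    (hc : ∀ u, ψ (b u) = Multiplicative.ofAdd (c u)) (p : ι → ℕ) (l : List ι) :
    ψ ((l.map (fun u => b u ^ p u)).prod) = Multiplicative.ofAdd ((l.map (fun u => c u * p u)).sum) := by
  induction l with
  | nil => simp
  | cons u l ih =>
    simp only [List.map_cons, List.prod_cons, List.sum_cons]
    rw [map_mul, ih, map_pow, hc, ← ofAdd_nsmul, ← ofAdd_add, nsmul_eq_mul, mul_comm]

theorem gp_ev {V : Type} [Fintype V] {H : Type} [Group H] (ψ : H →* Multiplicative ℤ) (b : V → H) (c : V → ℤ)
    (hc : ∀ u, ψ (b u) = Multiplicative.ofAdd (c u)) (p : V → ℕ) :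
    ψ (gp b p) = Multiplicative.ofAdd (∑ u, c u * p u) := by
  rw [gp, list_ev ψ b c hc, Finset.sum_map_toList]

theorem gp_mapA {V : Type} [Fintype V] {H Γ : Type} [Group H] [Group Γ] (φ : H →* Γ) (b : V → H) (p : V → ℕ) :
    gp (fun v => φ (b v)) p = φ (gp b p) := by
  unfold gp
  rw [map_list_prod, List.map_map]
  congr 1
  refine List.map_congr_left fun v _ => ?_
  simp

section

variable {U : Type} [Fintype U] [DecidableEq U] {L : SimpleGraph U}

/-- the exponents -/
def cA (N : ℕ) (u : U) (x : U × Bool) : ℤ :=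
  if x.1 = u then (if x.2 then (N : ℤ) else -(N : ℤ)) else 0

theorem cA_sum (N : ℕ) (u : U) (p : U × Bool → ℕ) :
    ∑ x, cA N u x * (p x : ℤ) = N * p (u, true) - N * p (u, false) := by
  rw [Fintype.sum_prod_type]
  rw [Finset.sum_eq_single u]
  · rw [Fintype.sum_bool]
    unfold cA
    simp only [if_true, Bool.false_eq_true, if_false]
    ring
  · intro v _ hv
    refine Finset.sum_eq_zero fun b _ => ?_
    unfold cA
    rw [if_neg hv, zero_mul]
  · intro h
    exact absurd (Finset.mem_univ u) h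

/-- the orthants diverge -/
theorem far_artin {H : Subgroup (Artin L)} {Γ : Type} [Group Γ] (φ : ↥H →* Γ) (hφ : Function.Injective φ)
    {N : ℕ} (hN0 : 0 < N) (b : U × Bool → ↥H)
    (hb : ∀ x, ((b x : ↥H) : Artin L) = if x.2 then gA L x.1 ^ N else (gA L x.1 ^ N)⁻¹) :
    Far (Oct L) (fun v => φ (b v)) := by
  classical
  intro F hF
  have hK : ∀ u : U, {k : ℤ | ∃ h : ↥H, φ h ∈ F ∧ evA L u (h : Artin L) = Multiplicative.ofAdd k}.Finite := by
    intro u
    have h1 : (φ ⁻¹' F).Finite := hF.preimage hφ.injOn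
    have h2 : ((fun h : ↥H => evA L u (h : Artin L)) '' (φ ⁻¹' F)).Finite := h1.image _
    refine (h2.preimage (Multiplicative.ofAdd.injective.injOn)).subset ?_
    rintro k ⟨h, hh, he⟩
    exact ⟨h, hh, he⟩
  have hB : ∀ u : U, ∃ B : ℕ, ∀ k : ℤ,
      (∃ h : ↥H, φ h ∈ F ∧ evA L u (h : Artin L) = Multiplicative.ofAdd k) → |k| ≤ B := by
    intro u
    obtain ⟨B, hB⟩ := ((hK u).image (fun k : ℤ => k.natAbs)).bddAbove
    refine ⟨B, fun k hk => ?_⟩
    have h1 : k.natAbs ≤ B := hB ⟨k, hk, rfl⟩
    rw [Int.abs_eq_natAbs]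
    exact_mod_cast h1
  choose Bf hBf using hB
  refine ⟨∑ u, Bf u, fun p q hp hq hpq hF' => ?_⟩
  have key : ∀ u, (p (u, true) : ℤ) ≤ Bf u ∧ (p (u, false) : ℤ) ≤ Bf u ∧ (q (u, true) : ℤ) ≤ Bf u ∧
      (q (u, false) : ℤ) ≤ Bf u := by
    intro u
    have h1 : φ ((gp b q)⁻¹ * gp b p) ∈ F := by
      rw [map_mul, map_inv, ← gp_mapA, ← gp_mapA]
      exact hF'
    have h3 : ∀ x, ((evA L u).comp H.subtype) (b x) = Multiplicative.ofAdd (cA N u x) := by
      intro x
      rw [MonoidHom.comp_apply, Subgroup.subtype_apply, hb]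
      obtain ⟨w, ε⟩ := x
      cases ε with
      | true =>
        rw [if_pos rfl, map_pow, evA_gen, ← ofAdd_nsmul, nsmul_eq_mul]
        congr 1
        unfold cA
        simp only [if_true]
        split_ifs
        · ring
        · ring
      | false =>
        rw [if_neg (by simp), map_inv, map_pow, evA_gen, ← ofAdd_nsmul, nsmul_eq_mul, ← ofAdd_neg]
        congr 1
        unfold cA
        simp only [Bool.false_eq_true, if_false]
        split_ifs
        · ring
        · ring
    have h4 := gp_ev ((evA L u).comp H.subtype) b (cA N u) h3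
    have h2 : evA L u (((gp b q)⁻¹ * gp b p : ↥H) : Artin L)
        = Multiplicative.ofAdd (-(∑ x, cA N u x * (q x : ℤ)) + ∑ x, cA N u x * (p x : ℤ)) := by
      have h5 : evA L u (((gp b q)⁻¹ * gp b p : ↥H) : Artin L)
          = ((evA L u).comp H.subtype) ((gp b q)⁻¹ * gp b p) := rfl
      rw [h5, map_mul, map_inv, h4, h4, ofAdd_add, ofAdd_neg]
    have h6 := hBf u _ ⟨_, h1, h2⟩
    rw [cA_sum, cA_sum] at h6
    have hna : ¬ (Oct L).Adj (u, true) (u, false) := fun h7 => L.loopless.irrefl u h7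
    have c1 : p (u, true) = 0 ∨ p (u, false) = 0 := by
      by_contra h7
      rw [not_or] at h7
      exact hna (hp h7.1 h7.2 (by simp))
    have c2 : q (u, true) = 0 ∨ q (u, false) = 0 := by
      by_contra h7
      rw [not_or] at h7
      exact hna (hq h7.1 h7.2 (by simp))
    have c3 := hpq (u, true)
    have c4 := hpq (u, false)
    have hN1 : (1 : ℤ) ≤ N := by exact_mod_cast hN0
    generalize p (u, true) = P at *
    generalize p (u, false) = P' at *
    generalize q (u, true) = Q at *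
    generalize q (u, false) = Q' at *
    have n1 : (0 : ℤ) ≤ P := Int.natCast_nonneg _
    have n2 : (0 : ℤ) ≤ P' := Int.natCast_nonneg _
    have n3 : (0 : ℤ) ≤ Q := Int.natCast_nonneg _
    have n4 : (0 : ℤ) ≤ Q' := Int.natCast_nonneg _
    have m1 : (P : ℤ) ≤ N * P := by nlinarith
    have m2 : (P' : ℤ) ≤ N * P' := by nlinarith
    have m3 : (Q : ℤ) ≤ N * Q := by nlinarith
    have m4 : (Q' : ℤ) ≤ N * Q' := by nlinarith
    rw [abs_le] at h6
    obtain ⟨h6a, h6b⟩ := h6
    rcases c1 with c1 | c1 <;> rcases c2 with c2 | c2 <;> rcases c3 with c3 | c3 <;> rcases c4 with c4 | c4 <;>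
      simp only [c1, c2, c3, c4, Nat.cast_zero, mul_zero, sub_zero, zero_sub, neg_neg, add_zero]
        at h6a h6b m1 m2 m3 m4 n1 n2 n3 n4 ⊢ <;>
      refine ⟨?_, ?_, ?_, ?_⟩ <;> linarith
  rintro ⟨u, ε⟩
  have hle : Bf u ≤ ∑ u, Bf u := Finset.single_le_sum (f := Bf) (fun _ _ => Nat.zero_le _) (Finset.mem_univ u)
  obtain ⟨k1, k2, k3, k4⟩ := key u
  cases ε with
  | true =>
    constructor
    · have : p (u, true) ≤ Bf u := by exact_mod_cast k1
      omega
    · have : q (u, true) ≤ Bf u := by exact_mod_cast k3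
      omega
  | false =>
    constructor
    · have : p (u, false) ≤ Bf u := by exact_mod_cast k2
      omega
    · have : q (u, false) ≤ Bf u := by exact_mod_cast k4
      omega

end

end Pool.Agent.W2helper34.PA
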