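import Mathlib

/-!
# Right-angled Artin groups
-/

set_option autoImplicit false

namespace Pool.Agent.W2helper34.PA

/-- the relations of the right-angled Artin group of the graph `L`: adjacent vertices commute -/
def relA {U : Type} (L : SimpleGraph U) : Set (FreeGroup U) :=
  {x | ∃ u v, L.Adj u v ∧ x = FreeGroup.of u * FreeGroup.of v * (FreeGroup.of u)⁻¹ * (FreeGroup.of v)⁻¹}

/-- the right-angled Artin group of the graph `L` -/
abbrev Artin {U : Type} (L : SimpleGraph U) : Type := PresentedGroup (relA L)

end Pool.Agent.W2helper34.PA
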