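import Pool.Agent.W2helper34.PA.ArtinDef
import Pool.Agent.W2helper34.AD.OctDef
import Pool.Agent.W907.SG.Defs

/-!
# Groups which contain right-angled Coxeter groups or right-angled Artin groups
-/

set_option autoImplicit false

namespace Pool.Agent.W2helper34.PA

open Pool.Agent.W907.SG (W)
open Pool.Agent.W2helper34.AD (Oct)

/-- The group `Γ` contains (an isomorphic copy of) a subgroup of finite index of

* the right-angled Coxeter group `W G`, where the neighbourhood of every vertex of the graph `G` is contained in the
  neighbourhood of another vertex, or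
* the right-angled Artin group of a graph `L`, where `G` is (isomorphic to) the octahedralization of `L`. -/
def Big {V : Type} (G : SimpleGraph V) (Γ : Type) [Group Γ] : Prop :=
  ((∀ v, ∃ w, w ≠ v ∧ ∀ u, G.Adj v u → G.Adj w u) ∧
    ∃ (H : Subgroup (W G)) (φ : ↥H →* Γ), H.FiniteIndex ∧ Function.Injective φ) ∨
  ∃ (U : Type) (L : SimpleGraph U) (H : Subgroup (Artin L)) (φ : ↥H →* Γ),
    Nonempty (G ≃g Oct L) ∧ H.FiniteIndex ∧ Function.Injective φ

end Pool.Agent.W2helper34.PA
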