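import Pool.Agent.W2helper34.PA.Stab

/-!
# Right-angled Coxeter groups of graphs in which every vertex is dominated by another vertex
-/

set_option autoImplicit false
set_option linter.unusedSectionVars false

namespace Pool.Agent.W2helper34.PA

open Pool.Agent.W2helper34.AD Pool.Agent.W907.SG
open Pool.Agent.R782.Bal (Obs)

/-- The neighbourhood of every vertex is contained in the neighbourhood of another vertex. -/
def Dom {V : Type} (G : SimpleGraph V) : Prop := ∀ v, ∃ w, w ≠ v ∧ ∀ u, G.Adj v u → G.Adj w u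

/-- such graphs are in the class `Od` -/
theorem dom_od (N : ℕ) : ∀ {V : Type} [Finite V] (G : SimpleGraph V), Nat.card V = N → Dom G → Od G := by
  induction N using Nat.strong_induction_on with
  | _ N ih =>
    intro V _ G hN hD
    by_cases h : ∀ v, ∃ w, w ≠ v ∧ ∀ u, G.Adj v u ↔ G.Adj w u
    · exact Od.twin G h
    · push Not at h
      obtain ⟨v, hv⟩ := h
      obtain ⟨a, hav, ha⟩ := hD v
      obtain ⟨b, hba, hb⟩ := hD a
      -- `v` is not a twin of `a`
      have hnt : ¬ ∀ u, G.Adj a u → G.Adj v u := by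
        intro h1
        obtain ⟨u, hu⟩ := hv a hav
        rcases hu with hu | hu
        · exact hu.2 (ha u hu.1)
        · exact hu.1 (h1 u hu.2)
      have hbv : b ≠ v := by
        rintro rfl
        exact hnt hb
      have hva : ¬ G.Adj v a := fun h1 => G.loopless.irrefl _ (ha a h1)
      have hvb : ¬ G.Adj v b := fun h1 => G.loopless.irrefl _ (hb b (ha b h1))
      refine Od.vert G v a b hav hbv hba.symm hva hvb (fun u hu => ⟨ha u hu, hb u (ha u hu)⟩) ?_ ?_
      · refine ih _ ?_ (G.induce {v}ᶜ) rfl ?_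
        · rw [← hN]
          refine Finite.card_subtype_lt (x := v) ?_
          simp
        · rintro ⟨u, hu⟩
          obtain ⟨w, hwu, hw⟩ := hD u
          by_cases hwv : w = v
          · subst hwv
            refine ⟨⟨a, hav⟩, ?_, ?_⟩
            · intro h1
              have h2 : a = u := congrArg Subtype.val h1
              subst h2
              exact hnt hw
            · rintro ⟨x, hx⟩ hux
              exact ha x (hw x hux)
          · refine ⟨⟨w, hwv⟩, fun h1 => hwu (congrArg Subtype.val h1), ?_⟩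
            rintro ⟨x, hx⟩ hux
            exact hw x hux
      · refine ih _ ?_ (G.induce (G.neighborSet v)) rfl ?_
        · rw [← hN]
          refine Finite.card_subtype_lt (x := v) ?_
          simp
        · rintro ⟨u, hu⟩
          obtain ⟨w, hwu, hw⟩ := hD u
          have hu' : G.Adj v u := hu
          refine ⟨⟨w, (hw v hu'.symm).symm⟩, fun h1 => hwu (congrArg Subtype.val h1), ?_⟩
          rintro ⟨x, hx⟩ hux
          exact hw x hux

section

variable {V : Type} {G : SimpleGraph V}

/-- the generators of adjacent vertices commute -/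
theorem simple_comm {x y : V} (h : G.Adj x y) : Commute ((cox G).simple x) ((cox G).simple y) := by
  classical
  have h1 := (cox G).toCoxeterSystem.simple_mul_simple_pow x y
  have h2 : (cox G) x y = 2 := by
    show (if x = y then 1 else if G.Adj x y then 2 else 0) = 2
    rw [if_neg h.ne, if_pos h]
  rw [h2, pow_two] at h1
  have h3 : ∀ z : V, (cox G).toCoxeterSystem.simple z * (cox G).toCoxeterSystem.simple z = 1 :=
    fun z => (cox G).toCoxeterSystem.simple_mul_simple_self z
  have h4 : (cox G).toCoxeterSystem.simple x * (cox G).toCoxeterSystem.simple y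
      = (cox G).toCoxeterSystem.simple y * (cox G).toCoxeterSystem.simple x := by
    have h5 := eq_inv_of_mul_eq_one_left h1
    rw [h5, mul_inv_rev, inv_eq_of_mul_eq_one_left (h3 x), inv_eq_of_mul_eq_one_left (h3 y)]
  exact h4

open Classical in
/-- the images of the generators in the infinite dihedral group -/
noncomputable def fr (v w u : V) : DihedralGroup 0 :=
  if u = v then DihedralGroup.sr 0 else if u = w then DihedralGroup.sr 1 else 1

theorem fr_lift {v w : V} (h : ¬ G.Adj v w) : (cox G).IsLiftable (fr v w) := by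
  classical
  have hsq : ∀ u, fr v w u * fr v w u = 1 := by
    intro u
    unfold fr
    split_ifs
    · exact DihedralGroup.sr_mul_self _
    · exact DihedralGroup.sr_mul_self _
    · exact one_mul _
  intro x y
  show (fr v w x * fr v w y) ^ (if x = y then 1 else if G.Adj x y then 2 else 0) = 1
  split_ifs with h1 h2
  · rw [h1, pow_one]; exact hsq y
  · have h3 : fr v w x = 1 ∨ fr v w y = 1 := by
      unfold fr
      by_cases a1 : x = v
      · right
        have a2 : y ≠ v := fun e => h1 (a1.trans e.symm)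
        have a3 : y ≠ w := by
          rintro rfl
          exact h (a1 ▸ h2)
        rw [if_neg a2, if_neg a3]
      · by_cases a2 : x = w
        · right
          have a3 : y ≠ v := by
            rintro rfl
            exact h (a2 ▸ h2.symm)
          have a4 : y ≠ w := fun e => h1 (a2.trans e.symm)
          rw [if_neg a3, if_neg a4]
        · left
          rw [if_neg a1, if_neg a2]
    rcases h3 with h3 | h3
    · rw [h3, one_mul, pow_two]; exact hsq y
    · rw [h3, mul_one, pow_two]; exact hsq x
  · exact pow_zero _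

/-- the retraction of the right-angled Coxeter group onto an infinite dihedral group -/
noncomputable def rho {v w : V} (h : ¬ G.Adj v w) : W G →* DihedralGroup 0 :=
  (cox G).toCoxeterSystem.lift ⟨fr v w, fr_lift h⟩

theorem rho_simple {v w : V} (h : ¬ G.Adj v w) (u : V) : rho h ((cox G).simple u) = fr v w u :=
  (cox G).toCoxeterSystem.lift_apply_simple (fr_lift h) u

/-- the translations -/
noncomputable def rr (k : ℤ) : DihedralGroup 0 := DihedralGroup.r (Int.cast k)

theorem rr_mul (k l : ℤ) : rr k * rr l = rr (k + l) := by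
  unfold rr
  rw [DihedralGroup.r_mul_r, Int.cast_add]

theorem rr_inv (k : ℤ) : (rr k)⁻¹ = rr (-k) := by
  unfold rr
  rw [DihedralGroup.inv_r, Int.cast_neg]

theorem rr_zero : rr 0 = 1 := by
  unfold rr
  rw [Int.cast_zero, DihedralGroup.r_zero]

theorem rr_pow (k : ℤ) (n : ℕ) : (rr k) ^ n = rr (k * n) := by
  unfold rr
  rw [DihedralGroup.r_pow, Int.cast_mul, Int.cast_natCast]

theorem rr_inj : Function.Injective rr := by
  intro k l h
  unfold rr at h
  have h1 : (Int.cast k : ZMod 0) = Int.cast l := by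
    injection h
  exact Int.cast_injective (α := ℤ) h1

theorem sr01 : (DihedralGroup.sr 0 * DihedralGroup.sr 1 : DihedralGroup 0) = rr 1 := by
  unfold rr
  rw [DihedralGroup.sr_mul_sr, sub_zero, Int.cast_one]

theorem sr10 : (DihedralGroup.sr 1 * DihedralGroup.sr 0 : DihedralGroup 0) = rr (-1) := by
  unfold rr
  rw [DihedralGroup.sr_mul_sr, zero_sub, Int.cast_neg, Int.cast_one]

/-- the exponent -/
def cc (N : ℕ) (f : V → V) [DecidableEq V] (v u : V) : ℤ :=
  if u = v then (N : ℤ) else if u = f v ∧ f u = v then -(N : ℤ) else 0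

theorem rho_pow [DecidableEq V] {f : V → V} (hf : ∀ v, f v ≠ v) {N : ℕ} (hN : Even N) {v : V}
    (h : ¬ G.Adj v (f v)) (u : V) :
    rho h (((cox G).simple u * (cox G).simple (f u)) ^ N) = rr (cc N f v u) := by
  rw [map_pow, map_mul, rho_simple, rho_simple]
  have hsr : ∀ i : ZMod 0, (DihedralGroup.sr i) ^ N = rr 0 := by
    intro i
    obtain ⟨k, rfl⟩ := hN
    rw [← two_mul, pow_mul, pow_two, DihedralGroup.sr_mul_self, one_pow, rr_zero]
  by_cases a1 : u = v
  · subst a1
    have e1 : fr u (f u) u = DihedralGroup.sr 0 := if_pos rfl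
    have e2 : fr u (f u) (f u) = DihedralGroup.sr 1 := by
      unfold fr
      rw [if_neg (hf u), if_pos rfl]
    have e3 : cc N f u u = N := if_pos rfl
    rw [e1, e2, e3, sr01, rr_pow, one_mul]
  · by_cases a2 : u = f v
    · have e1 : fr v (f v) u = DihedralGroup.sr 1 := by
        unfold fr
        rw [if_neg a1, if_pos a2]
      by_cases a3 : f u = v
      · have e2 : fr v (f v) (f u) = DihedralGroup.sr 0 := if_pos a3
        have e3 : cc N f v u = -(N : ℤ) := by
          unfold cc
          rw [if_neg a1, if_pos ⟨a2, a3⟩]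
        rw [e1, e2, e3, sr10, rr_pow, neg_one_mul]
      · have a4 : f u ≠ f v := by
          rw [← a2]; exact hf u
        have e2 : fr v (f v) (f u) = 1 := by
          unfold fr
          rw [if_neg a3, if_neg a4]
        have e3 : cc N f v u = 0 := by
          unfold cc
          rw [if_neg a1, if_neg (fun e => a3 e.2)]
        rw [e1, e2, e3, mul_one, hsr]
    · have e1 : fr v (f v) u = 1 := by
        unfold fr
        rw [if_neg a1, if_neg a2]
      have e3 : cc N f v u = 0 := by
        unfold cc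
        rw [if_neg a1, if_neg (fun e => a2 e.1)]
      rw [e1, e3, one_mul]
      unfold fr
      split_ifs
      · exact hsr _
      · exact hsr _
      · rw [one_pow, rr_zero]

theorem list_rr {ι : Type} {H : Type} [Group H] (ψ : H →* DihedralGroup 0) (b : ι → H) (c : ι → ℤ)
    (hc : ∀ u, ψ (b u) = rr (c u)) (p : ι → ℕ) (l : List ι) :
    ψ ((l.map (fun u => b u ^ p u)).prod) = rr ((l.map (fun u => c u * p u)).sum) := by
  induction l with
  | nil => simp [rr_zero]
  | cons u l ih =>
    simp only [List.map_cons, List.prod_cons, List.sum_cons]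
    rw [map_mul, ih, map_pow, hc, rr_pow, rr_mul]

theorem gp_rr [Fintype V] {H : Type} [Group H] (ψ : H →* DihedralGroup 0) (b : V → H) (c : V → ℤ)
    (hc : ∀ u, ψ (b u) = rr (c u)) (p : V → ℕ) : ψ (gp b p) = rr (∑ u, c u * p u) := by
  rw [gp, list_rr ψ b c hc, Finset.sum_map_toList]

theorem gp_map [Fintype V] {H Γ : Type} [Group H] [Group Γ] (φ : H →* Γ) (b : V → H) (p : V → ℕ) :
    gp (fun v => φ (b v)) p = φ (gp b p) := by
  unfold gp
  rw [map_list_prod, List.map_map]
  congr 1
  refine List.map_congr_left fun v _ => ?_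
  simp

/-- sum of the exponents -/
theorem cc_sum [Fintype V] [DecidableEq V] {f : V → V} (hf : ∀ v, f v ≠ v) (N : ℕ) (v : V) (p : V → ℕ) :
    ∑ u, cc N f v u * (p u : ℤ) = N * p v - (if f (f v) = v then (N : ℤ) * p (f v) else 0) := by
  have h1 : ∀ u, cc N f v u * (p u : ℤ) = (if u = v then (N : ℤ) * p u else 0)
      + (if u = f v then (if f (f v) = v then -((N : ℤ) * p u) else 0) else 0) := by
    intro u
    unfold cc
    by_cases a1 : u = v
    · have a2 : u ≠ f v := by
        rw [a1]; exact (hf v).symm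
      rw [if_pos a1, if_pos a1, if_neg a2, add_zero]
    · rw [if_neg a1, if_neg a1, zero_add]
      by_cases a2 : u = f v
      · subst a2
        rw [if_pos rfl]
        by_cases a3 : f (f v) = v
        · rw [if_pos ⟨rfl, a3⟩, if_pos a3, neg_mul]
        · rw [if_neg (fun e => a3 e.2), if_neg a3, zero_mul]
      · rw [if_neg (fun e => a2 e.1), if_neg a2, zero_mul]
  rw [Finset.sum_congr rfl fun u _ => h1 u, Finset.sum_add_distrib, Finset.sum_ite_eq' Finset.univ v,
    Finset.sum_ite_eq' Finset.univ (f v), if_pos (Finset.mem_univ _), if_pos (Finset.mem_univ _)]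
  split_ifs
  · ring
  · ring

end

section

variable {V : Type} [Fintype V] [DecidableEq V] {G : SimpleGraph V}

/-- the orthants diverge -/
theorem far_of {H : Subgroup (W G)} {Γ : Type} [Group Γ] (φ : ↥H →* Γ) (hφ : Function.Injective φ)
    {f : V → V} (hf : ∀ v, f v ≠ v) (hadj : ∀ v, ¬ G.Adj v (f v)) {N : ℕ} (hN : Even N) (hN0 : 0 < N)
    (b : V → ↥H) (hb : ∀ v, ((b v : ↥H) : W G) = ((cox G).simple v * (cox G).simple (f v)) ^ N) :
    Far G (fun v => φ (b v)) := by
  intro F hF
  -- the exponents which can occur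
  have hK : ∀ v : V, {k : ℤ | ∃ h : ↥H, φ h ∈ F ∧ rho (hadj v) (h : W G) = rr k}.Finite := by
    intro v
    have h1 : (φ ⁻¹' F).Finite := hF.preimage hφ.injOn
    have h2 : ((fun h : ↥H => rho (hadj v) (h : W G)) '' (φ ⁻¹' F)).Finite := h1.image _
    refine (h2.preimage rr_inj.injOn).subset ?_
    rintro k ⟨h, hh, he⟩
    exact ⟨h, hh, he⟩
  have hB : ∀ v : V, ∃ B : ℕ, ∀ k : ℤ, (∃ h : ↥H, φ h ∈ F ∧ rho (hadj v) (h : W G) = rr k) → |k| ≤ B := by
    intro v
    obtain ⟨B, hB⟩ := ((hK v).image (fun k : ℤ => k.natAbs)).bddAbove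
    refine ⟨B, fun k hk => ?_⟩
    have h1 : k.natAbs ≤ B := hB ⟨k, hk, rfl⟩
    rw [Int.abs_eq_natAbs]
    exact_mod_cast h1
  choose Bf hBf using hB
  refine ⟨∑ v, Bf v, fun p q hp hq hpq hF' v => ?_⟩
  have hle : Bf v ≤ ∑ v, Bf v := Finset.single_le_sum (f := Bf) (fun _ _ => Nat.zero_le _) (Finset.mem_univ v)
  have h1 : φ ((gp b q)⁻¹ * gp b p) ∈ F := by
    rw [map_mul, map_inv, ← gp_map, ← gp_map]
    exact hF'
  have h2 : rho (hadj v) (((gp b q)⁻¹ * gp b p : ↥H) : W G)
      = rr (-(∑ u, cc N f v u * (q u : ℤ)) + ∑ u, cc N f v u * (p u : ℤ)) := by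
    have h3 : ∀ u, ((rho (hadj v)).comp H.subtype) (b u) = rr (cc N f v u) := by
      intro u
      rw [MonoidHom.comp_apply, Subgroup.subtype_apply, hb, rho_pow hf hN]
    have h4 := gp_rr ((rho (hadj v)).comp H.subtype) b (cc N f v) h3
    have h5 : rho (hadj v) (((gp b q)⁻¹ * gp b p : ↥H) : W G)
        = ((rho (hadj v)).comp H.subtype) ((gp b q)⁻¹ * gp b p) := rfl
    rw [h5, map_mul, map_inv, h4, h4, rr_inv, rr_mul]
  have h6 := hBf v _ ⟨_, h1, h2⟩
  rw [cc_sum hf, cc_sum hf] at h6
  have hfv := hf v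
  have c1 : p v ≠ 0 → p (f v) = 0 := by
    intro h7
    by_contra h8
    exact hadj v (hp h7 h8 hfv.symm)
  have c2 : q v ≠ 0 → q (f v) = 0 := by
    intro h7
    by_contra h8
    exact hadj v (hq h7 h8 hfv.symm)
  have hN1 : (1 : ℤ) ≤ N := by exact_mod_cast hN0
  have n1 : (0 : ℤ) ≤ p v := Int.natCast_nonneg _
  have n2 : (0 : ℤ) ≤ q v := Int.natCast_nonneg _
  have n3 : (0 : ℤ) ≤ p (f v) := Int.natCast_nonneg _
  have n4 : (0 : ℤ) ≤ q (f v) := Int.natCast_nonneg _
  have m1 : (p v : ℤ) ≤ N * p v := by nlinarith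
  have m2 : (q v : ℤ) ≤ N * q v := by nlinarith
  have m3 : (0 : ℤ) ≤ N * p (f v) := by positivity
  have m4 : (0 : ℤ) ≤ N * q (f v) := by positivity
  rw [abs_le] at h6
  have key : (p v : ℤ) ≤ Bf v ∧ (q v : ℤ) ≤ Bf v := by
    by_cases hp0 : p v = 0
    · by_cases hq0 : q v = 0
      · rw [hp0, hq0]
        exact ⟨by positivity, by positivity⟩
      · have c3 : (q (f v) : ℤ) = 0 := by exact_mod_cast c2 hq0
        rw [hp0] at h6 ⊢
        rw [c3] at h6
        refine ⟨by positivity, ?_⟩
        split_ifs at h6 <;> push_cast at h6 <;> linarith [h6.1, h6.2]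
    · have c3 : (p (f v) : ℤ) = 0 := by exact_mod_cast c1 hp0
      have hq0 : q v = 0 := (hpq v).resolve_left hp0
      rw [hq0] at h6 ⊢
      rw [c3] at h6
      refine ⟨?_, by positivity⟩
      split_ifs at h6 <;> push_cast at h6 <;> linarith [h6.1, h6.2]
  constructor
  · have : p v ≤ Bf v := by exact_mod_cast key.1
    omega
  · have : q v ≤ Bf v := by exact_mod_cast key.2
    omega

/-- the elements `b v` of adjacent vertices commute -/
theorem pair_comm {f : V → V} (hdom : ∀ v u, G.Adj v u → G.Adj (f v) u) {u v : V} (h : G.Adj u v) (N : ℕ) :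
    Commute (((cox G).simple u * (cox G).simple (f u)) ^ N) (((cox G).simple v * (cox G).simple (f v)) ^ N) := by
  have h1 : G.Adj (f u) v := hdom u v h
  have h2 : G.Adj (f v) u := hdom v u h.symm
  have h3 : G.Adj (f u) (f v) := hdom u (f v) h2.symm
  refine Commute.pow_pow ?_ N N
  refine Commute.mul_left ?_ ?_
  · exact (simple_comm h).mul_right (simple_comm h2.symm)
  · exact (simple_comm h1).mul_right (simple_comm h3)

/-- **Theorem.** -/
theorem above_action [LinearOrder V] (hD : Dom G) (H : Subgroup (W G)) (hH : H.index ≠ 0)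
    {Γ : Type} [Group Γ] (φ : ↥H →* Γ) (hφ : Function.Injective φ) {M : Type} [TopologicalSpace M]
    [ContractibleSpace M] [MulAction Γ M] [ContinuousConstSMul Γ M] [ProperlyDiscontinuousSMul Γ M] {n : ℕ}
    (hM : StabEmb n M) (i : ℕ) (hi : n < 2 * i) : L2Van G i := by
  classical
  choose f hf hdom using hD
  have hadj : ∀ v, ¬ G.Adj v (f v) := fun v h1 => G.loopless.irrefl _ (hdom v (f v) h1)
  set N := 2 * (H.index).factorial with hN
  have hmem : ∀ g : W G, g ^ N ∈ H := by
    intro g
    refine H.pow_mem_of_index_ne_zero_of_dvd hH g ?_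
    intro m h1 h2
    exact (Nat.dvd_factorial h1 h2).trans (Dvd.intro_left 2 rfl)
  set b : V → ↥H := fun v => ⟨((cox G).simple v * (cox G).simple (f v)) ^ N, hmem _⟩ with hb
  have hO : Obs G (2 * i) := by
    refine obs_of_action G (fun v => φ (b v)) ?_ ?_ hM i hi
    · intro u v huv
      refine Commute.map ?_ φ
      apply Subtype.ext
      exact (pair_comm hdom huv N).eq
    · exact far_of φ hφ hf hadj ⟨_, two_mul _⟩ (by positivity) b fun v => rfl
  exact (PP_of_Od (dom_od _ G rfl fun v => ⟨f v, hf v, hdom v⟩)).2 i hO i le_rfl _ _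

end

end Pool.Agent.W2helper34.PA
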