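import Pool.Agent.W2helper34.PA.Stab

/-!
# Stably embedded spaces
-/

set_option autoImplicit false
set_option linter.unusedSectionVars false

namespace Pool.Agent.W2helper34.PA

open Set Topology Filter

/-- the first half of the coordinates of the map of the cone over `KT r` to the euclidean space -/
def c1 {r : ℕ} (y : Fin r × Fin 3 → ℝ) (c : Fin r) : ℝ := y (c, 0) - y (c, 2)

/-- the second half of the coordinates -/
def c2 {r : ℕ} (y : Fin r × Fin 3 → ℝ) (c : Fin r) : ℝ := y (c, 1) - y (c, 2)

theorem c12_inj {r : ℕ} {y y' : Fin r × Fin 3 → ℝ} (h1 : ∀ i, 0 ≤ y i) (h2 : ∀ i, 0 ≤ y' i)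
    (k1 : (KT r).IsClique {i | y i ≠ 0}) (k2 : (KT r).IsClique {i | y' i ≠ 0}) (hd : ∀ i, y i = 0 ∨ y' i = 0)
    (e1 : c1 y = c1 y') (e2 : c2 y = c2 y') : y = 0 ∧ y' = 0 := by
  have key : ∀ c : Fin r, (∀ b, y (c, b) = 0) ∧ ∀ b, y' (c, b) = 0 := by
    intro c
    have f1 : y (c, 0) - y (c, 2) = y' (c, 0) - y' (c, 2) := congrFun e1 c
    have f2 : y (c, 1) - y (c, 2) = y' (c, 1) - y' (c, 2) := congrFun e2 c
    have n0 := h1 (c, 0)
    have n1 := h1 (c, 1)
    have n2 := h1 (c, 2)
    have n0' := h2 (c, 0)
    have n1' := h2 (c, 1)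
    have n2' := h2 (c, 2)
    rcases lt_trichotomy (y (c, 2) - y' (c, 2)) 0 with h | h | h
    · exfalso
      exact k2 (x := (c, 0)) (fun e => by linarith) (y := (c, 2)) (fun e => by linarith) (by simp) rfl
    · have s0 : y (c, 0) = y' (c, 0) := by linarith
      have s1 : y (c, 1) = y' (c, 1) := by linarith
      have s2 : y (c, 2) = y' (c, 2) := by linarith
      have d : ∀ b, y (c, b) = y' (c, b) := by
        intro b
        fin_cases b
        · exact s0
        · exact s1
        · exact s2
      constructor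
      · intro b
        rcases hd (c, b) with h3 | h3
        · exact h3
        · rw [d b, h3]
      · intro b
        rcases hd (c, b) with h3 | h3
        · rw [← d b, h3]
        · exact h3
    · exfalso
      exact k1 (x := (c, 0)) (fun e => by linarith) (y := (c, 2)) (fun e => by linarith) (by simp) rfl
  constructor
  · funext ⟨c, b⟩
    exact (key c).1 b
  · funext ⟨c, b⟩
    exact (key c).2 b

theorem c1_cont {r : ℕ} : Continuous (c1 : (Fin r × Fin 3 → ℝ) → Fin r → ℝ) :=
  continuous_pi fun _ => (continuous_apply _).sub (continuous_apply _)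

theorem c2_cont {r : ℕ} : Continuous (c2 : (Fin r × Fin 3 → ℝ) → Fin r → ℝ) :=
  continuous_pi fun _ => (continuous_apply _).sub (continuous_apply _)

/-- a space `M` such that `M × ℝ^k` is embedded in `ℝ^(n+k)` -/
theorem stab_of_emb {n k : ℕ} {M : Type} [TopologicalSpace M] (j : M × (Fin k → ℝ) → (Fin (n + k) → ℝ))
    (hj : Continuous j) (hinj : Function.Injective j) : StabEmb n M := by
  intro C _
  refine ⟨k, fun x i => if h : (i : ℕ) < n + k then j (x.1, c1 x.2) ⟨i, h⟩
    else c2 x.2 ⟨i - (n + k), by have := i.2; omega⟩, ?_, ?_⟩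
  · refine Continuous.continuousOn ?_
    refine continuous_pi fun i => ?_
    by_cases h : (i : ℕ) < n + k
    · simp only [h, dif_pos]
      exact (continuous_apply _).comp (hj.comp (continuous_fst.prodMk (c1_cont.comp continuous_snd)))
    · simp only [h, dif_neg, not_false_eq_true]
      exact (continuous_apply _).comp (c2_cont.comp continuous_snd)
  · intro a _ b _ y y' hy hy' ky ky' hd heq
    have e1 : j (a, c1 y) = j (b, c1 y') := by
      funext i
      have h1 := congrFun heq ⟨i, by have := i.2; omega⟩
      simp only [i.2, dif_pos] at h1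
      exact h1
    have e2 : c2 y = c2 y' := by
      funext i
      have h1 := congrFun heq ⟨n + k + i, by have := i.2; omega⟩
      have h2 : ¬ n + k + (i : ℕ) < n + k := by omega
      simp only [h2, dif_neg, not_false_eq_true] at h1
      have h3 : (⟨n + k + (i : ℕ) - (n + k), by have := i.2; omega⟩ : Fin k) = i := by
        apply Fin.ext
        simp
      rw [h3] at h1
      exact h1
    have h4 := hinj e1
    rw [Prod.mk.injEq] at h4
    exact ⟨h4.1, c12_inj (fun i => (hy i).1) (fun i => (hy' i).1) ky ky' hd h4.2 e2⟩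

end Pool.Agent.W2helper34.PA
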