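import Mathlib

/-!
# Projections onto orthogonal complements
-/

set_option autoImplicit false
set_option linter.unusedSectionVars false

namespace Pool.Agent.W2helper34.PA

open Module

variable {F : Type} [NormedAddCommGroup F] [InnerProductSpace ℝ F] [FiniteDimensional ℝ F]

/-- the projection onto the orthogonal complement -/
noncomputable def pn (T : Submodule ℝ F) : F →L[ℝ] F := Tᗮ.starProjection

theorem pn_eq (T : Submodule ℝ F) (x : F) : pn T x = x - T.starProjection x := by
  rw [pn, Submodule.starProjection_orthogonal]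
  rfl

theorem pn_le (T : Submodule ℝ F) (x : F) : ‖pn T x‖ ≤ ‖x‖ := Tᗮ.norm_starProjection_apply_le x

theorem pn_mem (T : Submodule ℝ F) (x : F) : pn T x ∈ Tᗮ := Tᗮ.starProjection_apply_mem x

theorem sub_pn (T : Submodule ℝ F) (x : F) : x - pn T x = T.starProjection x := by
  rw [pn_eq]; abel

theorem sub_pn_mem (T : Submodule ℝ F) (x : F) : x - pn T x ∈ T := by
  rw [sub_pn]; exact T.starProjection_apply_mem x

theorem sub_pn_le (T : Submodule ℝ F) (x : F) : ‖x - pn T x‖ ≤ ‖x‖ := by
  rw [sub_pn]; exact T.norm_starProjection_apply_le x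

theorem pn_of_mem {T : Submodule ℝ F} {x : F} (h : x ∈ T) : pn T x = 0 := by
  rw [pn_eq, Submodule.starProjection_eq_self_iff.mpr h, sub_self]

theorem mem_of_pn {T : Submodule ℝ F} {x : F} (h : pn T x = 0) : x ∈ T := by
  have h1 := sub_pn_mem T x
  rwa [h, sub_zero] at h1

theorem pn_of_orth {T : Submodule ℝ F} {x : F} (h : x ∈ Tᗮ) : pn T x = x :=
  Submodule.starProjection_eq_self_iff.mpr h

/-- closeness of subspaces of the same dimension -/
theorem gap {S T : Submodule ℝ F} (hd : finrank ℝ S = finrank ℝ T) {δ : ℝ} (h0 : 0 ≤ δ) (h1 : δ ≤ 1 / 2)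
    (h : ∀ v ∈ S, ‖pn T v‖ ≤ δ * ‖v‖) : ‖pn S - pn T‖ ≤ 3 * δ := by
  have hs : ∀ w ∈ T, ∃ v ∈ S, v - pn T v = w := by
    let L : S →ₗ[ℝ] T :=
      { toFun := fun v => ⟨(v : F) - pn T v, sub_pn_mem T v⟩
        map_add' := by
          intro v w
          apply Subtype.ext
          simp only [Submodule.coe_add, map_add]
          abel
        map_smul' := by
          intro c v
          apply Subtype.ext
          simp only [Submodule.coe_smul, map_smul, RingHom.id_apply]
          rw [smul_sub] }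
    have hinj : Function.Injective L := by
      rw [injective_iff_map_eq_zero]
      intro v hv
      have h2 : (v : F) - pn T v = 0 := congrArg Subtype.val hv
      have h3 : (v : F) = pn T v := sub_eq_zero.mp h2
      have h4 := h v v.2
      rw [← h3] at h4
      have h5 : ‖(v : F)‖ ≤ 0 := by nlinarith [norm_nonneg (v : F)]
      exact Subtype.ext (norm_le_zero_iff.mp h5)
    have hsurj := (LinearMap.injective_iff_surjective_of_finrank_eq_finrank hd).mp hinj
    intro w hw
    obtain ⟨v, hv⟩ := hsurj ⟨w, hw⟩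
    exact ⟨v, v.2, congrArg Subtype.val hv⟩
  have hw : ∀ w ∈ T, ‖pn S w‖ ≤ 2 * δ * ‖w‖ := by
    intro w hw
    obtain ⟨v, hv, hvw⟩ := hs w hw
    have h2 : v - w = pn T v := by rw [← hvw]; abel
    have h3 : ‖v - w‖ ≤ δ * ‖v‖ := by rw [h2]; exact h v hv
    have h4 : ‖v‖ ≤ ‖w‖ + ‖v - w‖ := by
      have := norm_add_le w (v - w)
      rwa [add_sub_cancel] at this
    have h5 : ‖v - w‖ ≤ 2 * δ * ‖w‖ := by
      have h6 : 0 ≤ ‖w‖ := norm_nonneg w
      have h7 : 0 ≤ ‖v - w‖ := norm_nonneg _
      nlinarith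
    have h6 : pn S w = pn S (w - v) := by rw [map_sub, pn_of_mem hv, sub_zero]
    rw [h6]
    refine (pn_le S _).trans ?_
    rw [norm_sub_rev]
    exact h5
  have hy : ∀ y ∈ Tᗮ, ‖y - pn S y‖ ≤ δ * ‖y‖ := by
    intro y hy
    set q := y - pn S y with hq
    have hqS : q ∈ S := sub_pn_mem S y
    have h2 : inner ℝ q y = ‖q‖ ^ 2 := by
      have h3 : inner ℝ q (pn S y) = 0 := (Submodule.mem_orthogonal S _).mp (pn_mem S y) q hqS
      have h4 : y = q + pn S y := by rw [hq]; abel
      conv_lhs => rw [h4]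
      rw [inner_add_right, h3, add_zero, real_inner_self_eq_norm_sq]
    have h5 : inner ℝ q y = inner ℝ (pn T q) y := by
      have h6 : inner ℝ (q - pn T q) y = 0 := (Submodule.mem_orthogonal T _).mp hy _ (sub_pn_mem T q)
      rw [inner_sub_left] at h6
      linarith
    have h7 : ‖q‖ ^ 2 ≤ δ * ‖q‖ * ‖y‖ := by
      rw [← h2, h5]
      refine (real_inner_le_norm _ _).trans ?_
      exact mul_le_mul_of_nonneg_right (h q hqS) (norm_nonneg y)
    rcases (norm_nonneg q).eq_or_lt with h8 | h8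
    · rw [← h8]; positivity
    · have h9 : ‖q‖ * ‖q‖ ≤ ‖q‖ * (δ * ‖y‖) := by nlinarith
      exact le_of_mul_le_mul_left h9 h8
  refine ContinuousLinearMap.opNorm_le_bound _ (by positivity) fun x => ?_
  have e1 : (pn S - pn T) x = pn S (x - pn T x) - (pn T x - pn S (pn T x)) := by
    rw [map_sub, ContinuousLinearMap.sub_apply]; abel
  rw [e1]
  refine (norm_sub_le _ _).trans ?_
  have h2 := hw _ (sub_pn_mem T x)
  have h3 := hy _ (pn_mem T x)
  have h4 := sub_pn_le T x
  have h5 := pn_le T x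
  have h6 : 2 * δ * ‖x - pn T x‖ ≤ 2 * δ * ‖x‖ := mul_le_mul_of_nonneg_left h4 (by positivity)
  have h7 : δ * ‖pn T x‖ ≤ δ * ‖x‖ := mul_le_mul_of_nonneg_left h5 h0
  linarith

end Pool.Agent.W2helper34.PA
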