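import Pool.Agent.W2helper34.PA.Milnor
import Pool.Agent.W2helper34.PA.Gap

/-!
# Trivialization of normal bundles over contractible spaces
-/

set_option autoImplicit false
set_option linter.unusedSectionVars false

namespace Pool.Agent.W2helper34.PA

open Set Topology Filter

variable {F W M : Type} [NormedAddCommGroup F] [InnerProductSpace ℝ F] [FiniteDimensional ℝ F]
  [NormedAddCommGroup W] [NormedSpace ℝ W] [TopologicalSpace M]

/-- a continuous normal framing over `C` along the time `t` map -/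
def Good (κ : Contr M) (T : M → Submodule ℝ F) (W : Type) [NormedAddCommGroup W] [NormedSpace ℝ W] (C : Set M)
    (t : unitInterval) : Prop :=
  ∃ A : M → (W →L[ℝ] F), ContinuousOn A C ∧ ∀ x ∈ C, Function.Injective (A x) ∧ ∀ w, A x w ∈ (T (κ.c t x))ᗮ

theorem good_step {κ : Contr M} {T : M → Submodule ℝ F} {C : Set M} {t t' : unitInterval}
    (hT : ContinuousOn (fun x => pn (T (κ.c t' x))) C)
    (h : ∀ x ∈ C, ‖pn (T (κ.c t x)) - pn (T (κ.c t' x))‖ < 1) (hg : Good κ T W C t) : Good κ T W C t' := by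
  obtain ⟨A, hA, hA2⟩ := hg
  refine ⟨fun x => (pn (T (κ.c t' x))).comp (A x), hT.clm_comp hA, fun x hx => ⟨?_, fun w => pn_mem _ _⟩⟩
  rw [injective_iff_map_eq_zero]
  intro w hw
  have h1 : pn (T (κ.c t' x)) (A x w) = 0 := hw
  have h2 : pn (T (κ.c t x)) (A x w) = A x w := pn_of_orth ((hA2 x hx).2 w)
  have h3 : A x w = (pn (T (κ.c t x)) - pn (T (κ.c t' x))) (A x w) := by
    rw [sub_apply, h1, h2, sub_zero]
  have h4 : ‖A x w‖ ≤ ‖pn (T (κ.c t x)) - pn (T (κ.c t' x))‖ * ‖A x w‖ := by
    conv_lhs => rw [h3]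
    exact ContinuousLinearMap.le_opNorm _ _
  have h5 : ‖A x w‖ = 0 := by
    rcases (norm_nonneg (A x w)).eq_or_lt with h6 | h6
    · exact h6.symm
    · exfalso
      have h7 := h x hx
      nlinarith
  exact (injective_iff_map_eq_zero _).mp (hA2 x hx).1 w (norm_eq_zero.mp h5)

theorem exists_frame (κ : Contr M) (T : M → Submodule ℝ F) {C s : Set M} (hC : IsCompact C)
    (hT : ContinuousOn (fun z => pn (T z)) s) (hs : ∀ x ∈ C, ∀ t : unitInterval, κ.c t x ∈ s)
    (A1 : W →L[ℝ] F) (hA1 : Function.Injective A1) (hA2 : ∀ w, A1 w ∈ (T κ.m0)ᗮ) :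
    ∃ A : M → (W →L[ℝ] F), ContinuousOn A C ∧ ∀ x ∈ C, Function.Injective (A x) ∧ ∀ w, A x w ∈ (T x)ᗮ := by
  have hcomp : CompactSpace C := isCompact_iff_compactSpace.mp hC
  -- continuity of the projections
  have hQ : Continuous (fun p : unitInterval × C => pn (T (κ.c p.1 p.2))) := by
    refine hT.comp_continuous (f := fun p : unitInterval × C => κ.c p.1 p.2) ?_ ?_
    · exact κ.cont.comp ((continuous_subtype_val.comp continuous_fst).prodMk
        (continuous_subtype_val.comp continuous_snd))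
    · rintro ⟨t, x⟩
      exact hs x x.2 t
  have hTt : ∀ t : unitInterval, ContinuousOn (fun x => pn (T (κ.c t x))) C := by
    intro t
    refine hT.comp (f := fun x : M => κ.c t x) (s := C) ?_ fun x hx => hs x hx t
    exact (κ.cont.comp (continuous_const.prodMk continuous_id)).continuousOn
  have hloc : ∀ τ : unitInterval, ∀ᶠ t : unitInterval in 𝓝 τ, ∀ x ∈ C, ‖pn (T (κ.c τ x)) - pn (T (κ.c t x))‖ < 1 := by
    intro τ
    have h1 : Continuous (fun p : unitInterval × C => ‖pn (T (κ.c τ p.2)) - pn (T (κ.c p.1 p.2))‖) :=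
      ((hQ.comp (continuous_const.prodMk continuous_snd)).sub hQ).norm
    have h2 : IsOpen {p : unitInterval × C | ‖pn (T (κ.c τ p.2)) - pn (T (κ.c p.1 p.2))‖ < 1} :=
      isOpen_lt h1 continuous_const
    obtain ⟨u, v, hu, _, hτ, hv, huv⟩ := generalized_tube_lemma (s := {τ}) isCompact_singleton
      (t := (Set.univ : Set C)) isCompact_univ h2 (by
        rintro ⟨t, x⟩ ⟨ht, _⟩
        rw [mem_singleton_iff] at ht
        simp only at ht
        subst ht
        show ‖_ - _‖ < _
        rw [sub_self, norm_zero]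
        exact zero_lt_one)
    refine Filter.mem_of_superset (hu.mem_nhds (hτ rfl)) ?_
    intro t ht x hx
    have h5 : ((t, (⟨x, hx⟩ : C)) : unitInterval × C) ∈ u ×ˢ v :=
      Set.mk_mem_prod ht (hv (Set.mem_univ (⟨x, hx⟩ : C)))
    have h6 := huv h5
    rw [Set.mem_ofPred_eq] at h6
    exact h6
  have hP : ∀ t t' : unitInterval, (Good κ T W C t ↔ Good κ T W C t') := by
    have hstep : ∀ τ : unitInterval, ∀ᶠ t : unitInterval in 𝓝 τ, (Good κ T W C τ ↔ Good κ T W C t) := by
      intro τ
      filter_upwards [hloc τ] with t ht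
      constructor
      · exact good_step (hTt t) ht
      · refine good_step (hTt τ) fun x hx => ?_
        rw [norm_sub_rev]
        exact ht x hx
    intro t t'
    have hopen : ∀ τ : unitInterval, ∀ᶠ t : unitInterval in 𝓝 τ, ((Good κ T W C t' ↔ Good κ T W C τ) ↔
        (Good κ T W C t' ↔ Good κ T W C t)) := by
      intro τ
      filter_upwards [hstep τ] with t ht
      rw [ht]
    have hclo : IsClopen {τ : unitInterval | Good κ T W C t' ↔ Good κ T W C τ} := by
      constructor
      · rw [← isOpen_compl_iff, isOpen_iff_mem_nhds]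
        intro τ hτ
        filter_upwards [hopen τ] with t ht h5
        exact hτ (ht.mpr h5)
      · rw [isOpen_iff_mem_nhds]
        intro τ hτ
        filter_upwards [hopen τ] with t ht
        exact ht.mp hτ
    have huniv := hclo.eq_univ ⟨t', Iff.rfl⟩
    have ht : t ∈ {τ : unitInterval | Good κ T W C t' ↔ Good κ T W C τ} := by rw [huniv]; trivial
    exact Iff.symm ht
  have h1 : Good κ T W C 1 := by
    refine ⟨fun _ => A1, continuousOn_const, fun x _ => ⟨hA1, fun w => ?_⟩⟩
    have : κ.c ((1 : unitInterval) : ℝ) x = κ.m0 := κ.one x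
    rw [this]
    exact hA2 w
  obtain ⟨A, hA, hA2⟩ := (hP 1 0).mp h1
  refine ⟨A, hA, fun x hx => ⟨(hA2 x hx).1, fun w => ?_⟩⟩
  have h3 := (hA2 x hx).2 w
  have h4 : κ.c ((0 : unitInterval) : ℝ) x = x := κ.zero x
  rwa [h4] at h3

end Pool.Agent.W2helper34.PA
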