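import Pool.Agent.W2helper34.PA.Gap

/-!
# Immersions of smooth manifolds
-/

set_option autoImplicit false
set_option linter.unusedSectionVars false

namespace Pool.Agent.W2helper34.PA

open Module Set Topology Filter
open scoped Manifold ContDiff

theorem exists_inj (V V' : Type) [AddCommGroup V] [Module ℝ V] [AddCommGroup V'] [Module ℝ V']
    [FiniteDimensional ℝ V] [FiniteDimensional ℝ V'] (h : finrank ℝ V ≤ finrank ℝ V') :
    ∃ f : V →ₗ[ℝ] V', Function.Injective f := by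
  rw [← rank_le_iff_exists_linearMap, ← finrank_eq_rank, ← finrank_eq_rank]
  exact_mod_cast h

variable {n : ℕ} {M : Type} [TopologicalSpace M] [T2Space M] [ChartedSpace (EuclideanSpace ℝ (Fin n)) M]
  [IsManifold (𝓡 n) ∞ M]

theorem exists_cov {s : Set M} (hs : IsCompact s) :
    ∃ (ι : Type) (_ : Fintype ι), Nonempty (SmoothBumpCovering ι (𝓡 n) M s) := by
  classical
  have f : ∀ x : M, SmoothBumpFunction (𝓡 n) x := fun x => Classical.choice inferInstance
  obtain ⟨t, ht⟩ := hs.elim_nhds_subcover' (fun x _ => {y | (f x : M → ℝ) =ᶠ[𝓝 y] 1})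
    (fun x _ => (f x).eventuallyEq_one.eventuallyEq_nhds)
  refine ⟨t, inferInstance, ⟨⟨fun i => i.1.1, fun i => f i.1.1, fun i => i.1.2, ?_, ?_⟩⟩⟩
  · exact locallyFinite_of_finite _
  · intro x hx
    have h1 := ht hx
    simp only [mem_iUnion] at h1
    obtain ⟨y, hy, hy2⟩ := h1
    exact ⟨⟨y, hy⟩, hy2⟩

section Whitney

variable {ι : Type} {E : Type} [NormedAddCommGroup E] [NormedSpace ℝ E]
  [FiniteDimensional ℝ E] {H : Type} [TopologicalSpace H] {I : ModelWithCorners ℝ E H}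
  {M : Type} [TopologicalSpace M] [ChartedSpace H M] [IsManifold I ∞ M]
  [T2Space M] [Fintype ι] {s : Set M} (f : SmoothBumpCovering ι I M s)

/-- Smooth map of `M` into `(E × ℝ) ^ ι` (as in Mathlib's Whitney embedding theorem). -/
noncomputable def ept (x : M) (i : ι) : E × ℝ := (f i x • extChartAt I (f.c i) x, f i x)

theorem ept_smooth : ContMDiff I 𝓘(ℝ, ι → E × ℝ) ∞ (ept f) :=
  contMDiff_pi_space.2 fun i =>
      ((f i).contMDiff_smul contMDiffOn_extChartAt).prodMk_space (f i).contMDiff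

theorem ept_injOn : InjOn (ept f) s := by
  intro x hx y _ h
  simp only [ept, funext_iff] at h
  obtain ⟨h₁, h₂⟩ := Prod.mk_inj.1 (h (f.ind x hx))
  rw [f.apply_ind x hx] at h₂
  rw [← h₂, f.apply_ind x hx, one_smul, one_smul] at h₁
  have := f.mem_extChartAt_source_of_eq_one h₂.symm
  exact (extChartAt I (f.c _)).injOn (f.mem_extChartAt_ind_source x hx) this h₁

theorem comp_ept_mfderiv (x : M) (hx : x ∈ s) :
    ((ContinuousLinearMap.fst ℝ E ℝ).comp
            (@ContinuousLinearMap.proj ℝ _ ι (fun _ => E × ℝ) _ _ (fun _ => inferInstance)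
              (f.ind x hx))).comp
        (mfderiv I 𝓘(ℝ, ι → E × ℝ) (ept f) x) =
      mfderiv I I (chartAt H (f.c (f.ind x hx))) x := by
  set L :=
    (ContinuousLinearMap.fst ℝ E ℝ).comp
      (@ContinuousLinearMap.proj ℝ _ ι (fun _ => E × ℝ) _ _ (fun _ => inferInstance) (f.ind x hx))
  have := L.hasMFDerivAt.comp x
    ((ept_smooth f).mdifferentiableAt (by simp)).hasMFDerivAt
  convert! hasMFDerivAt_unique this _
  refine (hasMFDerivAt_extChartAt (f.mem_chartAt_ind_source x hx)).congr_of_eventuallyEq ?_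
  refine (f.eventuallyEq_one x hx).mono fun y hy => ?_
  simp only [L, ept, ContinuousLinearMap.coe_comp, (· ∘ ·),
    ContinuousLinearMap.coe_fst', ContinuousLinearMap.proj_apply]
  rw [hy, Pi.one_apply, one_smul]

theorem ept_ker_mfderiv (x : M) (hx : x ∈ s) :
    (mfderiv I 𝓘(ℝ, ι → E × ℝ) (ept f) x).ker = ⊥ := by
  apply bot_unique
  rw [← (mdifferentiable_chart (f.c (f.ind x hx))).ker_mfderiv_eq_bot
      (f.mem_chartAt_ind_source x hx),
    ← comp_ept_mfderiv]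
  exact LinearMap.ker_le_ker_comp _ _

theorem ept_injective_mfderiv (x : M) (hx : x ∈ s) :
    Function.Injective (mfderiv I 𝓘(ℝ, ι → E × ℝ) (ept f) x) :=
  LinearMap.ker_eq_bot.1 (ept_ker_mfderiv f x hx)

end Whitney

theorem exists_imm {s : Set M} (hs : IsCompact s) : ∃ (r : ℕ) (e : M → EuclideanSpace ℝ (Fin (n + 2 * r))),
    ContMDiff (𝓡 n) 𝓘(ℝ, EuclideanSpace ℝ (Fin (n + 2 * r))) ∞ e ∧ InjOn e s ∧
    ∀ x ∈ s, Function.Injective (mfderiv (𝓡 n) 𝓘(ℝ, EuclideanSpace ℝ (Fin (n + 2 * r))) e x) := by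
  obtain ⟨ι, _, ⟨f⟩⟩ := exists_cov (n := n) hs
  set r := finrank ℝ (ι → EuclideanSpace ℝ (Fin n) × ℝ) with hr
  obtain ⟨L, hL⟩ := exists_inj (ι → EuclideanSpace ℝ (Fin n) × ℝ) (EuclideanSpace ℝ (Fin (n + 2 * r))) (by
    rw [finrank_euclideanSpace_fin]; omega)
  set L' := LinearMap.toContinuousLinearMap L with hL'
  have hLs : ContMDiff 𝓘(ℝ, ι → EuclideanSpace ℝ (Fin n) × ℝ) 𝓘(ℝ, EuclideanSpace ℝ (Fin (n + 2 * r))) ∞ L' :=
    L'.contMDiff
  refine ⟨r, fun x => L' (ept f x), hLs.comp (ept_smooth f), ?_, ?_⟩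
  · intro x hx y hy hxy
    exact ept_injOn f hx hy (hL hxy)
  · intro x hx
    have h1 : mfderiv (𝓡 n) 𝓘(ℝ, EuclideanSpace ℝ (Fin (n + 2 * r))) (fun x => L' (ept f x)) x
        = (mfderiv 𝓘(ℝ, ι → EuclideanSpace ℝ (Fin n) × ℝ) 𝓘(ℝ, EuclideanSpace ℝ (Fin (n + 2 * r))) L'
            (ept f x)).comp
          (mfderiv (𝓡 n) 𝓘(ℝ, ι → EuclideanSpace ℝ (Fin n) × ℝ) (ept f) x) :=
      mfderiv_comp x (L'.differentiableAt.mdifferentiableAt)
        ((ept_smooth f).mdifferentiableAt (by simp))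
    rw [h1]
    have h2 : mfderiv 𝓘(ℝ, ι → EuclideanSpace ℝ (Fin n) × ℝ) 𝓘(ℝ, EuclideanSpace ℝ (Fin (n + 2 * r))) L'
        (ept f x) = L' := L'.mfderiv_eq
    rw [h2]
    exact hL.comp (ept_injective_mfderiv f x hx)

end Pool.Agent.W2helper34.PA
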