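import Pool.Agent.W2helper34.PA.Imm

/-!
# Secants and tangent spaces of smooth submanifolds
-/

set_option autoImplicit false
set_option linter.unusedSectionVars false

namespace Pool.Agent.W2helper34.PA

open Module Set Topology Filter
open scoped Manifold ContDiff

variable {n d : ℕ} {M : Type} [TopologicalSpace M] [ChartedSpace (EuclideanSpace ℝ (Fin n)) M]
  [IsManifold (𝓡 n) ∞ M]

/-- the derivative of `e` at `z`, in the preferred chart at `z` -/
noncomputable def Dz (e : M → EuclideanSpace ℝ (Fin d)) (z : M) :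
    EuclideanSpace ℝ (Fin n) →L[ℝ] EuclideanSpace ℝ (Fin d) :=
  fderiv ℝ (e ∘ (extChartAt (𝓡 n) z).symm) (extChartAt (𝓡 n) z z)

theorem Dz_strict {e : M → EuclideanSpace ℝ (Fin d)}
    (he : ContMDiff (𝓡 n) 𝓘(ℝ, EuclideanSpace ℝ (Fin d)) ∞ e) (z : M) :
    HasStrictFDerivAt (e ∘ (extChartAt (𝓡 n) z).symm) (Dz e z) (extChartAt (𝓡 n) z z) := by
  have h1 := (contMDiffAt_iff.mp (he z)).2
  have h2 : ContDiffWithinAt ℝ ∞ (e ∘ (extChartAt (𝓡 n) z).symm) (range (𝓡 n)) (extChartAt (𝓡 n) z z) := h1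
  rw [ModelWithCorners.range_eq_univ, contDiffWithinAt_univ] at h2
  exact h2.hasStrictFDerivAt (by simp)

theorem deriv_unique {E F : Type} [NormedAddCommGroup E] [NormedSpace ℝ E] [NormedAddCommGroup F] [NormedSpace ℝ F]
    {f : E → F} {D D' : E →L[ℝ] F} {u : E} {S : Set E} (hS : S = univ) (h : HasFDerivWithinAt f D S u)
    (h' : HasFDerivAt f D' u) : D = D' := by
  rw [hS, hasFDerivWithinAt_univ] at h
  exact h.unique h'

theorem Dz_inj {e : M → EuclideanSpace ℝ (Fin d)}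
    (he : ContMDiff (𝓡 n) 𝓘(ℝ, EuclideanSpace ℝ (Fin d)) ∞ e) {z : M}
    (hz : Function.Injective (mfderiv (𝓡 n) 𝓘(ℝ, EuclideanSpace ℝ (Fin d)) e z)) :
    Function.Injective (Dz (n := n) e z) := by
  have h1 := ((he.mdifferentiableAt (x := z) (by simp)).hasMFDerivAt).2
  have h3 := deriv_unique (D := mfderiv (𝓡 n) 𝓘(ℝ, EuclideanSpace ℝ (Fin d)) e z)
    (ModelWithCorners.range_eq_univ (𝓡 n)) h1 (Dz_strict he z).hasFDerivAt
  intro v w hvw
  rw [← h3] at hvw
  exact hz hvw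

/-- the tangent space -/
noncomputable def Tz (e : M → EuclideanSpace ℝ (Fin d)) (z : M) : Submodule ℝ (EuclideanSpace ℝ (Fin d)) :=
  LinearMap.range (Dz (n := n) e z : EuclideanSpace ℝ (Fin n) →ₗ[ℝ] EuclideanSpace ℝ (Fin d))

theorem Tz_finrank {e : M → EuclideanSpace ℝ (Fin d)} {z : M} (hz : Function.Injective (Dz (n := n) e z)) :
    finrank ℝ (Tz (n := n) e z) = n := by
  have h := LinearMap.finrank_range_of_inj
    (f := (Dz (n := n) e z : EuclideanSpace ℝ (Fin n) →ₗ[ℝ] EuclideanSpace ℝ (Fin d))) hz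
  rw [finrank_euclideanSpace_fin] at h
  exact h

/-- secants near `z` are almost tangent at `z` -/
theorem tan_est {e : M → EuclideanSpace ℝ (Fin d)}
    (he : ContMDiff (𝓡 n) 𝓘(ℝ, EuclideanSpace ℝ (Fin d)) ∞ e) {z : M}
    (hz : Function.Injective (Dz (n := n) e z)) {δ : ℝ} (hδ : 0 < δ) :
    ∀ᶠ p : M × M in 𝓝 (z, z), ‖pn (Tz (n := n) e z) (e p.1 - e p.2)‖ ≤ δ * ‖e p.1 - e p.2‖ := by
  obtain ⟨K, hK0, hK⟩ := LinearMap.exists_antilipschitzWith
    (Dz (n := n) e z : EuclideanSpace ℝ (Fin n) →ₗ[ℝ] EuclideanSpace ℝ (Fin d))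
    (LinearMap.ker_eq_bot.mpr hz)
  have hKw : ∀ w, ‖w‖ ≤ K * ‖Dz (n := n) e z w‖ := fun w => by
    have := hK.le_mul_dist w 0
    simpa using this
  have hK1 : (0 : ℝ) < K := by exact_mod_cast hK0
  set c : ℝ := min (1 / 2) (δ / 2) / K with hc
  have hc0 : 0 < c := by
    rw [hc]
    have : 0 < min (1 / 2) (δ / 2) := lt_min (by norm_num) (by linarith)
    positivity
  have hcK : c * K = min (1 / 2) (δ / 2) := by rw [hc]; field_simp
  have hcK1 : c * K ≤ 1 / 2 := by rw [hcK]; exact min_le_left _ _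
  have hcK2 : c * K ≤ δ / 2 := by rw [hcK]; exact min_le_right _ _
  have h1 := (Dz_strict he z).isLittleO.def hc0
  have hcont : ContinuousAt (extChartAt (𝓡 n) z) z := continuousAt_extChartAt z
  have h2 : Tendsto (fun p : M × M => (extChartAt (𝓡 n) z p.1, extChartAt (𝓡 n) z p.2)) (𝓝 (z, z))
      (𝓝 (extChartAt (𝓡 n) z z, extChartAt (𝓡 n) z z)) := by
    have h3 : ContinuousAt (fun p : M × M => (extChartAt (𝓡 n) z p.1, extChartAt (𝓡 n) z p.2)) (z, z) :=
      ContinuousAt.prodMk (ContinuousAt.comp (x := ((z, z) : M × M)) (g := extChartAt (𝓡 n) z) (f := Prod.fst)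
        hcont continuousAt_fst) (ContinuousAt.comp (x := ((z, z) : M × M)) (g := extChartAt (𝓡 n) z)
        (f := Prod.snd) hcont continuousAt_snd)
    exact h3
  have h4 : ∀ᶠ a in 𝓝 z, a ∈ (extChartAt (𝓡 n) z).source := extChartAt_source_mem_nhds z
  have h5 : ∀ᶠ p : M × M in 𝓝 (z, z), p.1 ∈ (extChartAt (𝓡 n) z).source ∧ p.2 ∈ (extChartAt (𝓡 n) z).source := by
    rw [nhds_prod_eq]
    exact h4.prod_mk h4
  filter_upwards [h2.eventually h1, h5] with p hp hs
  simp only [Function.comp_apply, (extChartAt (𝓡 n) z).left_inv hs.1, (extChartAt (𝓡 n) z).left_inv hs.2] at hp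
  set v := e p.1 - e p.2 with hv
  set w := extChartAt (𝓡 n) z p.1 - extChartAt (𝓡 n) z p.2 with hw
  have h6 : ‖v - Dz (n := n) e z w‖ ≤ c * K * ‖Dz (n := n) e z w‖ := by
    refine hp.trans ?_
    rw [mul_assoc]
    exact mul_le_mul_of_nonneg_left (hKw w) hc0.le
  have h7 : ‖Dz (n := n) e z w‖ ≤ ‖v‖ + ‖v - Dz (n := n) e z w‖ := by
    have := norm_sub_le v (v - Dz (n := n) e z w)
    rwa [sub_sub_cancel] at this
  have h8 : 0 ≤ ‖Dz (n := n) e z w‖ := norm_nonneg _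
  have h9 : ‖Dz (n := n) e z w‖ ≤ 2 * ‖v‖ := by nlinarith
  have h10 : pn (Tz (n := n) e z) v = pn (Tz (n := n) e z) (v - Dz (n := n) e z w) := by
    have h13 : pn (Tz (n := n) e z) (v - Dz (n := n) e z w)
        = pn (Tz (n := n) e z) v - pn (Tz (n := n) e z) (Dz (n := n) e z w) := map_sub _ _ _
    rw [h13, pn_of_mem (T := Tz (n := n) e z) (x := Dz (n := n) e z w) ⟨w, rfl⟩, sub_zero]
  rw [h10]
  refine (pn_le _ _).trans (h6.trans ?_)
  have h11 : 0 ≤ c * K := by positivity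
  have h12 : 0 ≤ ‖v‖ := norm_nonneg _
  nlinarith

/-- the tangent spaces at points near `z` are almost contained in the tangent space at `z` -/
theorem gap_near {e : M → EuclideanSpace ℝ (Fin d)}
    (he : ContMDiff (𝓡 n) 𝓘(ℝ, EuclideanSpace ℝ (Fin d)) ∞ e) {z : M}
    (hz : Function.Injective (Dz (n := n) e z)) {δ : ℝ} (hδ : 0 < δ) :
    ∀ᶠ a in 𝓝 z, ∀ v ∈ Tz (n := n) e a, ‖pn (Tz (n := n) e z) v‖ ≤ δ * ‖v‖ := by
  have h1 := tan_est he hz hδ
  rw [nhds_prod_eq, Filter.eventually_prod_self_iff'] at h1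
  obtain ⟨U, hU, hU2⟩ := h1
  obtain ⟨U', hU', hUo, hUz⟩ := mem_nhds_iff.mp hU
  filter_upwards [hUo.mem_nhds hUz] with a ha
  rintro v ⟨w, rfl⟩
  set u := extChartAt (𝓡 n) a a with hu
  have hf := (Dz_strict he a).hasFDerivAt
  have hd : HasDerivAt (fun t : ℝ => (e ∘ (extChartAt (𝓡 n) a).symm) (u + t • w)) (Dz (n := n) e a w) 0 := by
    have h2 : HasDerivAt (fun t : ℝ => u + t • w) w 0 := by
      have h3 := ((hasDerivAt_id (0 : ℝ)).smul_const w).const_add u
      simpa using h3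
    have h4 : HasFDerivAt (e ∘ (extChartAt (𝓡 n) a).symm) (Dz (n := n) e a) (u + (0 : ℝ) • w) := by
      rw [zero_smul, add_zero]; exact hf
    exact h4.comp_hasDerivAt (0 : ℝ) h2
  have hlim := hasDerivAt_iff_tendsto_slope_zero.mp hd
  simp only [zero_add, zero_smul, add_zero] at hlim
  have hcs : Tendsto (fun t : ℝ => (extChartAt (𝓡 n) a).symm (u + t • w)) (𝓝[≠] 0) (𝓝 a) := by
    have h5 : ContinuousAt (extChartAt (𝓡 n) a).symm (u + (0 : ℝ) • w) := by
      rw [zero_smul, add_zero]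
      exact continuousAt_extChartAt_symm a
    have h6 : ContinuousAt (fun t : ℝ => u + t • w) 0 := by fun_prop
    have h7 : ContinuousAt (fun t : ℝ => (extChartAt (𝓡 n) a).symm (u + t • w)) 0 :=
      ContinuousAt.comp (g := (extChartAt (𝓡 n) a).symm) (f := fun t : ℝ => u + t • w) h5 h6
    have h8 : (extChartAt (𝓡 n) a).symm (u + (0 : ℝ) • w) = a := by
      rw [zero_smul, add_zero, hu, extChartAt_to_inv]
    have h9 : Tendsto (fun t : ℝ => (extChartAt (𝓡 n) a).symm (u + t • w)) (𝓝 0) (𝓝 a) := by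
      have h10 : Tendsto (fun t : ℝ => (extChartAt (𝓡 n) a).symm (u + t • w)) (𝓝 0)
          (𝓝 ((extChartAt (𝓡 n) a).symm (u + (0 : ℝ) • w))) := h7
      rwa [h8] at h10
    exact h9.mono_left nhdsWithin_le_nhds
  have hev : ∀ᶠ t : ℝ in 𝓝[≠] 0, (extChartAt (𝓡 n) a).symm (u + t • w) ∈ U' :=
    hcs.eventually_mem (hUo.mem_nhds ha)
  have hea : (e ∘ (extChartAt (𝓡 n) a).symm) u = e a := by
    rw [Function.comp_apply, hu, extChartAt_to_inv]
  have hineq : ∀ᶠ t : ℝ in 𝓝[≠] 0,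
      ‖pn (Tz (n := n) e z) (t⁻¹ • ((e ∘ (extChartAt (𝓡 n) a).symm) (u + t • w)
        - (e ∘ (extChartAt (𝓡 n) a).symm) u))‖
      ≤ δ * ‖t⁻¹ • ((e ∘ (extChartAt (𝓡 n) a).symm) (u + t • w) - (e ∘ (extChartAt (𝓡 n) a).symm) u)‖ := by
    filter_upwards [hev] with t ht
    have h11 := hU2 _ (hU' ht) _ (hU' ha)
    rw [hea, map_smul, norm_smul, norm_smul]
    rw [Function.comp_apply]
    have h12 : 0 ≤ ‖t⁻¹‖ := norm_nonneg _
    have h13 := mul_le_mul_of_nonneg_left h11 h12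
    simp only at h13
    linarith
  refine le_of_tendsto_of_tendsto (b := 𝓝[≠] (0 : ℝ)) ?_ ?_ hineq
  · exact (((pn (Tz (n := n) e z)).continuous.norm).tendsto _).comp hlim
  · exact ((continuous_norm.tendsto _).comp hlim).const_mul δ

/-- the normal projections depend continuously on the point -/
theorem pn_cont {e : M → EuclideanSpace ℝ (Fin d)}
    (he : ContMDiff (𝓡 n) 𝓘(ℝ, EuclideanSpace ℝ (Fin d)) ∞ e) {s : Set M}
    (hs : ∀ z ∈ s, Function.Injective (Dz (n := n) e z)) :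
    ContinuousOn (fun z => pn (Tz (n := n) e z)) s := by
  intro z hz
  rw [ContinuousWithinAt, Metric.tendsto_nhds]
  intro ε hε
  have hδ : 0 < min (1 / 2) (ε / 6) := lt_min (by norm_num) (by linarith)
  have h1 := gap_near he (hs z hz) hδ
  filter_upwards [h1.filter_mono nhdsWithin_le_nhds, self_mem_nhdsWithin] with a ha has
  rw [dist_eq_norm]
  have h2 := gap (by rw [Tz_finrank (hs a has), Tz_finrank (hs z hz)]) hδ.le (min_le_left _ _) ha
  have h3 : min (1 / 2) (ε / 6) ≤ ε / 6 := min_le_right _ _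
  linarith

end Pool.Agent.W2helper34.PA
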