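import Pool.Agent.W2helper34.PA.EmbK
import Pool.Agent.W2helper34.PA.Frame
import Pool.Agent.W2helper34.PA.Tan

/-!
# Contractible smooth manifolds are stably embedded
-/

set_option autoImplicit false
set_option linter.unusedSectionVars false

namespace Pool.Agent.W2helper34.PA

open Module Set Topology Filter
open scoped Manifold ContDiff

section rho

variable {r : ℕ}

/-- the map of the cone over `KT r` to the euclidean space -/
def rh (y : Fin r × Fin 3 → ℝ) : (Fin r → ℝ) × (Fin r → ℝ) := (c1 y, c2 y)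

/-- two points of the cone over `KT r` with disjoint supports -/
structure Pair (y y' : Fin r × Fin 3 → ℝ) : Prop where
  h : ∀ i, 0 ≤ y i ∧ y i ≤ 1
  h' : ∀ i, 0 ≤ y' i ∧ y' i ≤ 1
  k : (KT r).IsClique {i | y i ≠ 0}
  k' : (KT r).IsClique {i | y' i ≠ 0}
  d : ∀ i, y i = 0 ∨ y' i = 0

theorem Pair.mul {y y' : Fin r × Fin 3 → ℝ} (P : Pair y y') (c : Fin r) {a b : Fin 3} (hab : a ≠ b) :
    (y (c, a) - y' (c, a)) * (y (c, b) - y' (c, b)) ≤ 0 := by
  have g : y (c, a) = 0 ∨ y (c, b) = 0 := by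
    by_contra h
    rw [not_or] at h
    have m1 : (c, a) ∈ {i | y i ≠ 0} := h.1
    have m2 : (c, b) ∈ {i | y i ≠ 0} := h.2
    exact P.k m1 m2 (by simpa using hab) rfl
  have g' : y' (c, a) = 0 ∨ y' (c, b) = 0 := by
    by_contra h
    rw [not_or] at h
    have m1 : (c, a) ∈ {i | y' i ≠ 0} := h.1
    have m2 : (c, b) ∈ {i | y' i ≠ 0} := h.2
    exact P.k' m1 m2 (by simpa using hab) rfl
  have n1 := (P.h (c, a)).1
  have n2 := (P.h (c, b)).1
  have n3 := (P.h' (c, a)).1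
  have n4 := (P.h' (c, b)).1
  rcases P.d (c, a) with d1 | d1 <;> rcases P.d (c, b) with d2 | d2 <;> rcases g with g | g <;>
    rcases g' with g' | g' <;> simp only [d1, d2, g, g'] <;> nlinarith

theorem abs_le_sub {a b : ℝ} (h : a * b ≤ 0) : |a| ≤ |a - b| := by
  rw [← sq_le_sq]
  nlinarith [sq_nonneg b]

theorem abs_coord (z : Fin r × Fin 3 → ℝ) (i : Fin r × Fin 3) : |z i| ≤ ‖z‖ := norm_le_pi_norm z i

theorem Pair.sub_le {y y' : Fin r × Fin 3 → ℝ} (P : Pair y y') : ‖y - y'‖ ≤ ‖rh y - rh y'‖ := by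
  rw [pi_norm_le_iff_of_nonneg (norm_nonneg _)]
  rintro ⟨c, b⟩
  have e1 : |(y (c, 0) - y' (c, 0)) - (y (c, 2) - y' (c, 2))| ≤ ‖rh y - rh y'‖ := by
    have h1 : ‖(c1 y - c1 y') c‖ ≤ ‖c1 y - c1 y'‖ := norm_le_pi_norm _ c
    have h2 : ‖c1 y - c1 y'‖ ≤ ‖rh y - rh y'‖ := norm_fst_le (rh y - rh y')
    have h3 : (c1 y - c1 y') c = (y (c, 0) - y' (c, 0)) - (y (c, 2) - y' (c, 2)) := by
      rw [Pi.sub_apply]
      unfold c1
      ring
    rw [h3] at h1
    exact h1.trans h2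
  have e2 : |(y (c, 1) - y' (c, 1)) - (y (c, 2) - y' (c, 2))| ≤ ‖rh y - rh y'‖ := by
    have h1 : ‖(c2 y - c2 y') c‖ ≤ ‖c2 y - c2 y'‖ := norm_le_pi_norm _ c
    have h2 : ‖c2 y - c2 y'‖ ≤ ‖rh y - rh y'‖ := norm_snd_le (rh y - rh y')
    have h3 : (c2 y - c2 y') c = (y (c, 1) - y' (c, 1)) - (y (c, 2) - y' (c, 2)) := by
      rw [Pi.sub_apply]
      unfold c2
      ring
    rw [h3] at h1
    exact h1.trans h2
  rw [Pi.sub_apply, Real.norm_eq_abs]
  fin_cases b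
  · exact (abs_le_sub (P.mul c (by decide))).trans e1
  · exact (abs_le_sub (P.mul c (by decide))).trans e2
  · refine (abs_le_sub (a := y (c, 2) - y' (c, 2)) (b := y (c, 0) - y' (c, 0)) (P.mul c (by decide))).trans ?_
    rw [abs_sub_comm]
    exact e1

theorem rh_le {y : Fin r × Fin 3 → ℝ} (h : ∀ i, 0 ≤ y i) : ‖rh y‖ ≤ ‖y‖ := by
  have hn : 0 ≤ ‖y‖ := norm_nonneg y
  have h1 : ∀ i j, |y i - y j| ≤ ‖y‖ := by
    intro i j
    refine abs_sub_le_of_nonneg_of_le (h i) ?_ (h j) ?_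
    · exact (le_abs_self _).trans (abs_coord y i)
    · exact (le_abs_self _).trans (abs_coord y j)
  rw [Prod.norm_def]
  refine max_le ?_ ?_
  · rw [pi_norm_le_iff_of_nonneg hn]
    intro c
    exact h1 _ _
  · rw [pi_norm_le_iff_of_nonneg hn]
    intro c
    exact h1 _ _

theorem Pair.le_sub {y y' : Fin r × Fin 3 → ℝ} (P : Pair y y') : ‖y‖ ≤ ‖y - y'‖ ∧ ‖y'‖ ≤ ‖y - y'‖ := by
  constructor
  · rw [pi_norm_le_iff_of_nonneg (norm_nonneg _)]
    intro i
    have h1 := abs_coord (y - y') i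
    rw [Pi.sub_apply] at h1
    rcases P.d i with h | h
    · rw [h, norm_zero]; exact norm_nonneg _
    · rw [h, sub_zero] at h1
      exact h1
  · rw [pi_norm_le_iff_of_nonneg (norm_nonneg _)]
    intro i
    have h1 := abs_coord (y - y') i
    rw [Pi.sub_apply] at h1
    rcases P.d i with h | h
    · rw [h, zero_sub, abs_neg] at h1
      exact h1
    · rw [h, norm_zero]; exact norm_nonneg _

end rho

section main

variable {n r : ℕ} {M : Type} [TopologicalSpace M]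

/-- the statement to be proved for a set of pairs -/
def SepS (e : M → EuclideanSpace ℝ (Fin (n + 2 * r)))
    (A : M → ((Fin r → ℝ) × (Fin r → ℝ) →L[ℝ] EuclideanSpace ℝ (Fin (n + 2 * r)))) (C : Set M)
    (S : Set (M × M)) : Prop :=
  ∃ ε0 : ℝ, 0 < ε0 ∧ ∀ ε : ℝ, 0 < ε → ε ≤ ε0 → ∀ a b : M, (a, b) ∈ S → a ∈ C → b ∈ C →
    ∀ y y' : Fin r × Fin 3 → ℝ, Pair y y' → e a + ε • A a (rh y) = e b + ε • A b (rh y') →
      a = b ∧ y = 0 ∧ y' = 0

/-- the estimate near the diagonal -/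
theorem near_diag {e : M → EuclideanSpace ℝ (Fin (n + 2 * r))}
    {A : M → ((Fin r → ℝ) × (Fin r → ℝ) →L[ℝ] EuclideanSpace ℝ (Fin (n + 2 * r)))} {C : Set M}
    (hinj : InjOn e C) (T : Submodule ℝ (EuclideanSpace ℝ (Fin (n + 2 * r)))) {z : M} {K : ℝ} (hK : 0 < K)
    (hAz : ∀ w, ‖w‖ ≤ K * ‖A z w‖) (hAT : ∀ w, A z w ∈ Tᗮ) {a b : M} (ha : a ∈ C) (hb : b ∈ C)
    (htan : ‖pn T (e a - e b)‖ ≤ 1 / 2 * ‖e a - e b‖) (h1 : ‖A a - A z‖ ≤ 1 / (16 * K))
    (h2 : ‖A b - A z‖ ≤ 1 / (16 * K)) {ε : ℝ} (hε : 0 < ε) {y y' : Fin r × Fin 3 → ℝ} (P : Pair y y')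
    (heq : e a + ε • A a (rh y) = e b + ε • A b (rh y')) : a = b ∧ y = 0 ∧ y' = 0 := by
  set δ := ‖y - y'‖ with hδ
  have hδ0 : 0 ≤ δ := norm_nonneg _
  have r1 : ‖rh y‖ ≤ δ := (rh_le fun i => (P.h i).1).trans P.le_sub.1
  have r2 : ‖rh y'‖ ≤ δ := (rh_le fun i => (P.h' i).1).trans P.le_sub.2
  have r3 : δ ≤ ‖rh y' - rh y‖ := by rw [norm_sub_rev]; exact P.sub_le
  have hw : e a - e b = ε • (A b (rh y') - A a (rh y)) := by
    rw [smul_sub]
    have := heq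
    rw [← sub_eq_zero] at this ⊢
    rw [← this]
    abel
  set m := A z (rh y' - rh y) with hm
  have hmT : m ∈ Tᗮ := hAT _
  have hmδ : δ ≤ K * ‖m‖ := r3.trans (hAz _)
  have hdiff : ‖(A b (rh y') - A a (rh y)) - m‖ ≤ 2 * (1 / (16 * K)) * δ := by
    have h3 : (A b (rh y') - A a (rh y)) - m = (A b - A z) (rh y') - (A a - A z) (rh y) := by
      rw [hm, map_sub, sub_apply, sub_apply]
      abel
    rw [h3]
    refine (norm_sub_le _ _).trans ?_
    have h4 := (A b - A z).le_opNorm (rh y')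
    have h5 := (A a - A z).le_opNorm (rh y)
    have h6 : 0 ≤ 1 / (16 * K) := by positivity
    have h7 : ‖A b - A z‖ * ‖rh y'‖ ≤ 1 / (16 * K) * δ :=
      mul_le_mul h2 r2 (norm_nonneg _) h6
    have h8 : ‖A a - A z‖ * ‖rh y‖ ≤ 1 / (16 * K) * δ :=
      mul_le_mul h1 r1 (norm_nonneg _) h6
    linarith
  set w := A b (rh y') - A a (rh y) with hwd
  have htan2 : ‖pn T w‖ ≤ 1 / 2 * ‖w‖ := by
    rw [hw, map_smul, norm_smul, norm_smul] at htan
    have h3 : 0 < ‖ε‖ := norm_pos_iff.mpr hε.ne'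
    have h4 : ‖ε‖ * ‖pn T w‖ ≤ ‖ε‖ * (1 / 2 * ‖w‖) := by linarith
    exact le_of_mul_le_mul_left h4 h3
  have h3 : ‖m‖ ≤ ‖pn T w‖ + ‖w - m‖ := by
    have h4 : m = pn T w - pn T (w - m) := by
      have h5 : pn T (w - m) = pn T w - pn T m := map_sub _ _ _
      rw [h5, pn_of_orth hmT]
      abel
    have h6 : ‖m‖ ≤ ‖pn T w‖ + ‖pn T (w - m)‖ := by
      conv_lhs => rw [h4]
      exact norm_sub_le _ _
    exact h6.trans (by linarith [pn_le T (w - m)])
  have h4 : ‖w‖ ≤ ‖m‖ + ‖w - m‖ := by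
    have := norm_add_le m (w - m)
    rwa [add_sub_cancel] at this
  have hδz : δ = 0 := by
    have h5 : ‖m‖ ≤ 6 * (1 / (16 * K)) * δ := by linarith
    have h6 : K * ‖m‖ ≤ K * (6 * (1 / (16 * K)) * δ) := mul_le_mul_of_nonneg_left h5 hK.le
    have h7 : K * (6 * (1 / (16 * K)) * δ) = 6 / 16 * δ := by field_simp
    rw [h7] at h6
    linarith
  have hyy : y - y' = 0 := norm_eq_zero.mp (hδ.symm.trans hδz)
  have hy0 : y = 0 := by
    have := P.le_sub.1
    rw [hyy, norm_zero] at this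
    exact norm_le_zero_iff.mp this
  have hy0' : y' = 0 := by
    have := P.le_sub.2
    rw [hyy, norm_zero] at this
    exact norm_le_zero_iff.mp this
  refine ⟨hinj ha hb ?_, hy0, hy0'⟩
  have h5 : ‖rh y‖ ≤ 0 := by rw [← hδz]; exact r1
  have h6 : ‖rh y'‖ ≤ 0 := by rw [← hδz]; exact r2
  rw [norm_le_zero_iff.mp h5, norm_le_zero_iff.mp h6, map_zero, map_zero, smul_zero, add_zero, add_zero] at heq
  exact heq

/-- the estimate away from the diagonal -/
theorem off_diag {e : M → EuclideanSpace ℝ (Fin (n + 2 * r))}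
    {A : M → ((Fin r → ℝ) × (Fin r → ℝ) →L[ℝ] EuclideanSpace ℝ (Fin (n + 2 * r)))} {B : ℝ} (hB : 0 < B)
    {k : ℝ} {a b : M} (hk : k / 2 < ‖e a - e b‖) (h1 : ‖A a‖ ≤ B) (h2 : ‖A b‖ ≤ B)
    {ε : ℝ} (hε : 0 < ε) (hε2 : ε ≤ k / (4 * B)) {y y' : Fin r × Fin 3 → ℝ} (P : Pair y y')
    (heq : e a + ε • A a (rh y) = e b + ε • A b (rh y')) : False := by
  have hw : e a - e b = ε • (A b (rh y') - A a (rh y)) := by
    rw [smul_sub]
    have := heq
    rw [← sub_eq_zero] at this ⊢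
    rw [← this]
    abel
  have hy : ∀ y : Fin r × Fin 3 → ℝ, (∀ i, 0 ≤ y i ∧ y i ≤ 1) → ‖rh y‖ ≤ 1 := by
    intro y hy
    refine (rh_le fun i => (hy i).1).trans ?_
    rw [pi_norm_le_iff_of_nonneg zero_le_one]
    intro i
    rw [Real.norm_eq_abs, abs_of_nonneg (hy i).1]
    exact (hy i).2
  have h3 := (A b).le_opNorm (rh y')
  have h4 := (A a).le_opNorm (rh y)
  have h5 : ‖A b‖ * ‖rh y'‖ ≤ B * 1 := mul_le_mul h2 (hy _ P.h') (norm_nonneg _) hB.le
  have h6 : ‖A a‖ * ‖rh y‖ ≤ B * 1 := mul_le_mul h1 (hy _ P.h) (norm_nonneg _) hB.le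
  have h7 : ‖e a - e b‖ ≤ ε * (2 * B) := by
    rw [hw, norm_smul, Real.norm_eq_abs, abs_of_pos hε]
    refine mul_le_mul_of_nonneg_left ?_ hε.le
    refine (norm_sub_le _ _).trans ?_
    linarith
  have h8 : ε * (2 * B) ≤ k / (4 * B) * (2 * B) := mul_le_mul_of_nonneg_right hε2 (by positivity)
  have h9 : k / (4 * B) * (2 * B) = k / 2 := by field_simp; ring
  linarith

variable {N : Type} [TopologicalSpace N] [T2Space N] [ChartedSpace (EuclideanSpace ℝ (Fin n)) N]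
  [IsManifold (𝓡 n) ∞ N]

theorem sep_all {f : M → N} (hf : Continuous f) {e : N → EuclideanSpace ℝ (Fin (n + 2 * r))}
    (he : ContMDiff (𝓡 n) 𝓘(ℝ, EuclideanSpace ℝ (Fin (n + 2 * r))) ∞ e)
    {A : M → ((Fin r → ℝ) × (Fin r → ℝ) →L[ℝ] EuclideanSpace ℝ (Fin (n + 2 * r)))} {C : Set M}
    (hC : IsCompact C) (hinj : InjOn (e ∘ f) C) (hD : ∀ z ∈ C, Function.Injective (Dz (n := n) e (f z)))
    (hA : ContinuousOn A C)
    (hA2 : ∀ x ∈ C, Function.Injective (A x) ∧ ∀ w, A x w ∈ (Tz (n := n) e (f x))ᗮ) :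
    SepS (e ∘ f) A C (C ×ˢ C) := by
  have hec : Continuous (e ∘ f) := he.continuous.comp hf
  refine (hC.prod hC).induction_on (p := SepS (e ∘ f) A C) ?_ ?_ ?_ ?_
  · exact ⟨1, one_pos, fun ε _ _ a b hab => absurd hab (Set.notMem_empty _)⟩
  · rintro S S' hSS ⟨ε0, h0, h1⟩
    exact ⟨ε0, h0, fun ε h2 h3 a b hab => h1 ε h2 h3 a b (hSS hab)⟩
  · rintro S S' ⟨ε0, h0, h1⟩ ⟨ε0', h0', h1'⟩
    refine ⟨min ε0 ε0', lt_min h0 h0', fun ε h2 h3 a b hab => ?_⟩
    rcases hab with hab | hab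
    · exact h1 ε h2 (h3.trans (min_le_left _ _)) a b hab
    · exact h1' ε h2 (h3.trans (min_le_right _ _)) a b hab
  · rintro ⟨a0, b0⟩ ⟨ha0, hb0⟩
    simp only at ha0 hb0
    have hfst : Tendsto (Prod.fst : M × M → M) (𝓝[C ×ˢ C] (a0, b0)) (𝓝[C] a0) := by
      refine tendsto_nhdsWithin_of_tendsto_nhds_of_eventually_within _ ?_ ?_
      · exact (continuous_fst.tendsto (a0, b0)).mono_left nhdsWithin_le_nhds
      · filter_upwards [self_mem_nhdsWithin] with p hp using hp.1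
    have hsnd : Tendsto (Prod.snd : M × M → M) (𝓝[C ×ˢ C] (a0, b0)) (𝓝[C] b0) := by
      refine tendsto_nhdsWithin_of_tendsto_nhds_of_eventually_within _ ?_ ?_
      · exact (continuous_snd.tendsto (a0, b0)).mono_left nhdsWithin_le_nhds
      · filter_upwards [self_mem_nhdsWithin] with p hp using hp.2
    by_cases hab : a0 = b0
    · subst hab
      obtain ⟨K, hK0, hK⟩ := LinearMap.exists_antilipschitzWith
        (A a0 : (Fin r → ℝ) × (Fin r → ℝ) →ₗ[ℝ] EuclideanSpace ℝ (Fin (n + 2 * r)))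
        (LinearMap.ker_eq_bot.mpr (hA2 a0 ha0).1)
      have hKw : ∀ w, ‖w‖ ≤ K * ‖A a0 w‖ := fun w => by
        have := hK.le_mul_dist w 0
        simpa using this
      have hK1 : (0 : ℝ) < K := by exact_mod_cast hK0
      have ht0 := tan_est he (hD a0 ha0) (δ := 1 / 2) (by norm_num)
      have hff : Tendsto (fun p : M × M => (f p.1, f p.2)) (𝓝 (a0, a0)) (𝓝 (f a0, f a0)) :=
        ((hf.comp continuous_fst).prodMk (hf.comp continuous_snd)).tendsto (a0, a0)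
      have ht : ∀ᶠ p : M × M in 𝓝 (a0, a0), ‖pn (Tz (n := n) e (f a0)) (e (f p.1) - e (f p.2))‖
          ≤ 1 / 2 * ‖e (f p.1) - e (f p.2)‖ := hff.eventually ht0
      have hAc : ∀ᶠ a in 𝓝[C] a0, ‖A a - A a0‖ ≤ 1 / (16 * K) := by
        have h1 := Metric.tendsto_nhds.mp (hA a0 ha0) (1 / (16 * K)) (by positivity)
        filter_upwards [h1] with a ha
        rw [← dist_eq_norm]
        exact ha.le
      have hev : ∀ᶠ p : M × M in 𝓝[C ×ˢ C] (a0, a0),
          ‖pn (Tz (n := n) e (f a0)) ((e ∘ f) p.1 - (e ∘ f) p.2)‖ ≤ 1 / 2 * ‖(e ∘ f) p.1 - (e ∘ f) p.2‖ ∧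
          ‖A p.1 - A a0‖ ≤ 1 / (16 * K) ∧ ‖A p.2 - A a0‖ ≤ 1 / (16 * K) := by
        filter_upwards [ht.filter_mono nhdsWithin_le_nhds, hfst.eventually hAc, hsnd.eventually hAc] with p h1 h2 h3
        exact ⟨h1, h2, h3⟩
      refine ⟨_, hev, 1, one_pos, fun ε hε _ a b hab ha hb y y' P heq => ?_⟩
      obtain ⟨h1, h2, h3⟩ := hab
      exact near_diag hinj (Tz (n := n) e (f a0)) hK1 hKw (hA2 a0 ha0).2 ha hb h1 h2 h3 hε P heq
    · set k := ‖(e ∘ f) a0 - (e ∘ f) b0‖ with hk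
      have hk0 : 0 < k := norm_pos_iff.mpr (sub_ne_zero.mpr fun h => hab (hinj ha0 hb0 h))
      set B := ‖A a0‖ + ‖A b0‖ + 1 with hB
      have hB0 : 0 < B := by positivity
      have hA3 : ∀ x ∈ C, ‖A x‖ < B → ∀ᶠ a in 𝓝[C] x, ‖A a‖ ≤ B := by
        intro x hx hxB
        have h1 := (continuous_norm.tendsto (A x)).comp (hA x hx)
        filter_upwards [h1.eventually (gt_mem_nhds hxB)] with a ha
        exact ha.le
      have hev : ∀ᶠ p : M × M in 𝓝[C ×ˢ C] (a0, b0),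
          k / 2 < ‖(e ∘ f) p.1 - (e ∘ f) p.2‖ ∧ ‖A p.1‖ ≤ B ∧ ‖A p.2‖ ≤ B := by
        have h1 : ContinuousAt (fun p : M × M => ‖(e ∘ f) p.1 - (e ∘ f) p.2‖) (a0, b0) :=
          ((hec.comp continuous_fst).sub (hec.comp continuous_snd)).norm.continuousAt
        have h2 : ∀ᶠ p : M × M in 𝓝 (a0, b0), k / 2 < ‖(e ∘ f) p.1 - (e ∘ f) p.2‖ :=
          h1.eventually (lt_mem_nhds (by show k / 2 < k; linarith))
        have n1 := norm_nonneg (A a0)
        have n2 := norm_nonneg (A b0)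
        filter_upwards [h2.filter_mono nhdsWithin_le_nhds, hfst.eventually (hA3 a0 ha0 (by linarith)),
          hsnd.eventually (hA3 b0 hb0 (by linarith))] with p h1 h2 h3
        exact ⟨h1, h2, h3⟩
      refine ⟨_, hev, k / (4 * B), by positivity, fun ε hε hε2 a b hab ha hb y y' P heq => ?_⟩
      obtain ⟨h1, h2, h3⟩ := hab
      exact (off_diag hB0 h1 h2 h3 hε hε2 P heq).elim

/-- **Contractible subspaces of smooth manifolds are stably embedded** (in the weak sense used here). -/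
theorem stab_of_smooth [ContractibleSpace M] {f : M → N} (hf : Continuous f) (hfi : Function.Injective f) :
    StabEmb n M := by
  classical
  intro C hC
  rcases C.eq_empty_or_nonempty with hCe | ⟨x0, hx0⟩
  · subst hCe
    refine ⟨0, fun _ _ => 0, continuousOn_const, fun a ha => absurd ha (Set.notMem_empty a)⟩
  obtain ⟨κ⟩ := exists_contr M
  set s : Set M := (fun p : ℝ × M => κ.c p.1 p.2) '' (Icc 0 1 ×ˢ C) with hs
  have hsc : IsCompact s := (isCompact_Icc.prod hC).image κ.cont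
  have hCs : C ⊆ s := fun x hx => ⟨(0, x), ⟨⟨le_rfl, zero_le_one⟩, hx⟩, κ.zero x⟩
  have hts : ∀ x ∈ C, ∀ t : unitInterval, κ.c t x ∈ s := fun x hx t => ⟨((t : ℝ), x), ⟨t.2, hx⟩, rfl⟩
  have hm0 : κ.m0 ∈ s := by
    have := hts x0 hx0 1
    rwa [show κ.c ((1 : unitInterval) : ℝ) x0 = κ.m0 from κ.one x0] at this
  obtain ⟨r, e, he, hinj, hmf⟩ := exists_imm (n := n) (hsc.image hf)
  have hD : ∀ z ∈ f '' s, Function.Injective (Dz (n := n) e z) := fun z hz => Dz_inj he (hmf z hz)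
  have hpn : ContinuousOn (fun x => pn (Tz (n := n) e (f x))) s :=
    (pn_cont he hD).comp (f := f) hf.continuousOn fun x hx => ⟨x, hx, rfl⟩
  have hfr : finrank ℝ (Tz (n := n) e (f κ.m0))ᗮ = 2 * r := by
    have h1 := Submodule.finrank_add_finrank_orthogonal (Tz (n := n) e (f κ.m0))
    rw [Tz_finrank (hD _ ⟨_, hm0, rfl⟩), finrank_euclideanSpace_fin] at h1
    omega
  obtain ⟨L, hL⟩ := exists_inj ((Fin r → ℝ) × (Fin r → ℝ)) ((Tz (n := n) e (f κ.m0))ᗮ) (by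
    rw [hfr, Module.finrank_prod, Module.finrank_fin_fun]; omega)
  obtain ⟨A, hA, hA2⟩ := exists_frame κ (fun x => Tz (n := n) e (f x)) hC hpn hts
    (LinearMap.toContinuousLinearMap (((Tz (n := n) e (f κ.m0))ᗮ).subtype.comp L))
    (fun v w hvw => hL (Subtype.ext hvw)) (fun w => (L w).2)
  have hinj2 : InjOn (e ∘ f) C := by
    intro x hx y hy hxy
    exact hfi (hinj ⟨x, hCs hx, rfl⟩ ⟨y, hCs hy, rfl⟩ hxy)
  obtain ⟨ε, hε, hsep⟩ := sep_all hf he hC hinj2 (fun z hz => hD _ ⟨z, hCs hz, rfl⟩) hA hA2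
  have hec : Continuous (e ∘ f) := he.continuous.comp hf
  refine ⟨r, fun p => ((e ∘ f) p.1 + ε • A p.1 (rh p.2)).ofLp, ?_, ?_⟩
  · refine (PiLp.continuous_ofLp 2 _).comp_continuousOn ?_
    refine ContinuousOn.add (hec.comp continuous_fst).continuousOn ?_
    refine ContinuousOn.const_smul ?_ ε
    refine ContinuousOn.clm_apply ?_ ?_
    · exact hA.comp continuous_fst.continuousOn fun p hp => hp.1
    · exact ((c1_cont.comp continuous_snd).prodMk (c2_cont.comp continuous_snd)).continuousOn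
  · intro a ha b hb y y' hy hy' ky ky' hd heq
    exact hsep ε hε le_rfl a b ⟨ha, hb⟩ ha hb y y' ⟨hy, hy', ky, ky', hd⟩ (WithLp.ofLp_injective 2 heq)

end main

end Pool.Agent.W2helper34.PA
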