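import Pool.Agent.W2helper34.PA.Dom
import Pool.Agent.W2helper34.PA.Artin
import Pool.Agent.W2helper34.PA.Smooth
import Pool.Agent.W2helper34.PA.BigDef

/-!
# `ℓ²`-vanishing above the middle dimension for groups acting properly on contractible manifolds
-/

set_option autoImplicit false
set_option linter.unusedSectionVars false

namespace Pool.Agent.W2helper34.PA

open Set
open Pool.Agent.W2helper34.AD Pool.Agent.W907.SG
open Pool.Agent.R782.Bal (Obs)
open Pool.Agent.N504.RS (obs_mono)
open scoped Manifold ContDiff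

theorem oct_dom {U : Type} (L : SimpleGraph U) : Dom (Oct L) := by
  rintro ⟨u, b⟩
  refine ⟨(u, !b), ?_, fun x hx => hx⟩
  cases b <;> simp

/-- the Artin case -/
theorem obs_artin {U : Type} [Finite U] {L : SimpleGraph U} (H : Subgroup (Artin L)) (hH : H.index ≠ 0)
    {Γ : Type} [Group Γ] (φ : ↥H →* Γ) (hφ : Function.Injective φ) {M : Type} [TopologicalSpace M]
    [ContractibleSpace M] [MulAction Γ M] [ContinuousConstSMul Γ M] [ProperlyDiscontinuousSMul Γ M] {n : ℕ}
    (hM : StabEmb n M) (i : ℕ) (hi : n < 2 * i) : Obs (Oct L) (2 * i) := by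
  classical
  have : Fintype U := Fintype.ofFinite U
  set N := (H.index).factorial with hN
  have hmem : ∀ g : Artin L, g ^ N ∈ H := by
    intro g
    refine H.pow_mem_of_index_ne_zero_of_dvd hH g ?_
    intro m h1 h2
    exact Nat.dvd_factorial h1 h2
  set b : U × Bool → ↥H := fun x => ⟨if x.2 then gA L x.1 ^ N else (gA L x.1 ^ N)⁻¹, by
    split_ifs
    · exact hmem _
    · exact H.inv_mem (hmem _)⟩ with hb
  refine obs_of_action (Oct L) (fun v => φ (b v)) ?_ ?_ hM i hi
  · intro x y hxy
    refine Commute.map ?_ φ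
    apply Subtype.ext
    have h1 : Commute (gA L x.1 ^ N) (gA L y.1 ^ N) := (gA_comm (L := L) (u := x.1) (v := y.1) hxy).pow_pow N N
    have h2 : Commute (if x.2 then gA L x.1 ^ N else (gA L x.1 ^ N)⁻¹)
        (if y.2 then gA L y.1 ^ N else (gA L y.1 ^ N)⁻¹) := by
      split_ifs
      · exact h1
      · exact h1.inv_right
      · exact h1.inv_left
      · exact h1.inv_left.inv_right
    exact h2.eq
  · exact far_artin φ hφ (Nat.factorial_pos _) b fun x => rfl

/-- **Theorem.** -/
theorem above_big {V : Type} [Fintype V] [LinearOrder V] {G : SimpleGraph V} {Γ : Type} [Group Γ] (hG : Big G Γ)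
    {M : Type} [TopologicalSpace M] [ContractibleSpace M] [MulAction Γ M] [ContinuousConstSMul Γ M]
    [ProperlyDiscontinuousSMul Γ M] {n : ℕ} {N : Type} [TopologicalSpace N] [T2Space N]
    [ChartedSpace (EuclideanSpace ℝ (Fin n)) N] [IsManifold (𝓡 n) ∞ N] {f : M → N} (hf : Continuous f)
    (hfi : Function.Injective f) (i : ℕ) (hi : n < 2 * i) : L2Van G i := by
  have hM : StabEmb n M := stab_of_smooth (N := N) hf hfi
  rcases hG with ⟨hD, H, φ, hH, hφ⟩ | ⟨U, L, H, φ, ⟨e⟩, hH, hφ⟩
  · exact above_action hD H hH.index_ne_zero φ hφ hM i hi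
  · have hfin : Finite (U × Bool) := Finite.of_equiv V e.toEquiv
    have hU : Finite U := Finite.of_injective (fun u : U => (u, true)) fun a b h => (Prod.mk.inj h).1
    have h1 := obs_artin H hH.index_ne_zero φ hφ hM i hi
    have h2 : Obs G (2 * i) := obs_mono h1 e.toEquiv.toEmbedding fun a b hab => e.map_rel_iff.mpr hab
    have h3 : Dom G := by
      intro v
      obtain ⟨w, hw, hw2⟩ := oct_dom L (e v)
      refine ⟨e.symm w, ?_, ?_⟩
      · intro h4
        apply hw
        rw [← h4, RelIso.apply_symm_apply]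
      · intro u hu
        have h5 := hw2 (e u) (e.map_rel_iff.mpr hu)
        rw [← e.map_rel_iff, RelIso.apply_symm_apply]
        exact h5
    exact (PP_of_Od (dom_od _ G rfl h3)).2 i h2 i le_rfl _ _

end Pool.Agent.W2helper34.PA
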