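import Mathlib

/-!
# Maps of simplices into a contractible space with an action

Milnor's construction: a contraction of the contractible space `M` to the point `m₀` gives, for every list
`g₁, …, g_r` of group elements and nonnegative weights, a point of `M`, which depends continuously on the weights as
long as they do not all vanish, and which does not change if the elements of weight zero are omitted.
-/

set_option autoImplicit false
set_option linter.unusedSectionVars false

namespace Pool.Agent.W2helper34.PA

open Set Topology Filter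

/-- a contraction of `M` to the point `m₀` -/
structure Contr (M : Type) [TopologicalSpace M] where
  /-- the contraction -/
  c : ℝ → M → M
  /-- the end point -/
  m0 : M
  cont : Continuous (fun x : ℝ × M => c x.1 x.2)
  zero : ∀ m, c 0 m = m
  one : ∀ m, c 1 m = m0

theorem exists_contr (M : Type) [TopologicalSpace M] [ContractibleSpace M] : Nonempty (Contr M) := by
  obtain ⟨y, ⟨H⟩⟩ := id_nullhomotopic M
  refine ⟨⟨fun t m => H (projIcc 0 1 zero_le_one t, m), y, ?_, ?_, ?_⟩⟩
  · exact H.continuous.comp ((continuous_projIcc.comp continuous_fst).prodMk continuous_snd)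
  · intro m
    have h : projIcc (0 : ℝ) 1 zero_le_one 0 = 0 := by
      rw [projIcc_left]; rfl
    simp only [h]
    exact H.apply_zero m
  · intro m
    have h : projIcc (0 : ℝ) 1 zero_le_one 1 = 1 := by
      rw [projIcc_right]; rfl
    simp only [h]
    exact H.apply_one m

section

variable {Γ M ι : Type} [Group Γ] [TopologicalSpace M] [MulAction Γ M] [ContinuousConstSMul Γ M]

/-- Milnor's map -/
noncomputable def Phi (κ : Contr M) (g : ι → Γ) : List ι → (ι → ℝ) → M
  | [], _ => κ.m0
  | i :: l, w => g i • κ.c (w i / (w i + (l.map w).sum)) ((g i)⁻¹ • Phi κ g l w)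

/-- compact sets containing the images -/
noncomputable def Km (κ : Contr M) (g : ι → Γ) : List ι → Set M
  | [] => {κ.m0}
  | i :: l => (fun x : ℝ × M => g i • κ.c x.1 ((g i)⁻¹ • x.2)) '' (Icc 0 1 ×ˢ Km κ g l)

theorem step_cont (κ : Contr M) (a : Γ) : Continuous (fun x : ℝ × M => a • κ.c x.1 (a⁻¹ • x.2)) :=
  (κ.cont.comp (continuous_fst.prodMk (continuous_snd.const_smul a⁻¹))).const_smul a

theorem Km_compact (κ : Contr M) (g : ι → Γ) (l : List ι) : IsCompact (Km κ g l) := by
  induction l with
  | nil => exact isCompact_singleton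
  | cons i l ih => exact (isCompact_Icc.prod ih).image (step_cont κ (g i))

theorem sum_nonneg' {w : ι → ℝ} (hw : ∀ i, 0 ≤ w i) (l : List ι) : 0 ≤ (l.map w).sum := by
  refine List.sum_nonneg ?_
  intro x hx
  obtain ⟨i, _, rfl⟩ := List.mem_map.mp hx
  exact hw i

theorem ratio_mem {w : ι → ℝ} (hw : ∀ i, 0 ≤ w i) (i : ι) (l : List ι) :
    w i / (w i + (l.map w).sum) ∈ Icc (0 : ℝ) 1 := by
  have h1 := sum_nonneg' hw l
  have h2 := hw i
  refine ⟨by positivity, div_le_one_of_le₀ (by linarith) (by linarith)⟩

theorem Phi_mem (κ : Contr M) (g : ι → Γ) {w : ι → ℝ} (hw : ∀ i, 0 ≤ w i) (l : List ι) :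
    Phi κ g l w ∈ Km κ g l := by
  induction l with
  | nil => exact mem_singleton _
  | cons i l ih => exact ⟨(_, _), ⟨ratio_mem hw i l, ih⟩, rfl⟩

/-- elements of weight zero may be omitted -/
theorem Phi_filter (κ : Contr M) (g : ι → Γ) (w : ι → ℝ) (p : ι → Bool) (hp : ∀ i, p i = false → w i = 0)
    (l : List ι) : ((l.filter p).map w).sum = (l.map w).sum ∧ Phi κ g (l.filter p) w = Phi κ g l w := by
  induction l with
  | nil => exact ⟨rfl, rfl⟩
  | cons i l ih =>
    cases h : p i with
    | false =>
      have h0 := hp i h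
      rw [List.filter_cons_of_neg (by simp [h])]
      refine ⟨?_, ?_⟩
      · rw [ih.1, List.map_cons, List.sum_cons, h0, zero_add]
      · rw [ih.2, Phi, h0, zero_div, κ.zero, smul_inv_smul]
    | true =>
      rw [List.filter_cons_of_pos (by simp [h])]
      refine ⟨?_, ?_⟩
      · rw [List.map_cons, List.map_cons, List.sum_cons, List.sum_cons, ih.1]
      · rw [Phi, Phi, ih.1, ih.2]

/-- equivariance -/
theorem Phi_equi {ι' : Type} (κ : Contr M) (g : ι → Γ) (g' : ι' → Γ) (f : ι → ι') (γ : Γ) {w : ι → ℝ} (l : List ι)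
    (hl : l ≠ []) (hw : ∀ i ∈ l, 0 < w i) (hg : ∀ i ∈ l, g i = γ * g' (f i)) :
    ∃ y ∈ Km κ g' (l.map f), Phi κ g l w = γ • y := by
  induction l with
  | nil => exact absurd rfl hl
  | cons i l ih =>
    have hgi := hg i List.mem_cons_self
    have hwi := hw i List.mem_cons_self
    by_cases hne : l = []
    · subst hne
      refine ⟨g' (f i) • κ.m0, ⟨(1, κ.m0), ⟨⟨zero_le_one, le_rfl⟩, mem_singleton _⟩, ?_⟩, ?_⟩
      · simp only [κ.one]
      · rw [Phi, List.map_nil, List.sum_nil, add_zero, div_self hwi.ne', κ.one, hgi, mul_smul]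
    · obtain ⟨y, hy, hyP⟩ := ih hne (fun j hj => hw j (List.mem_cons_of_mem _ hj))
        (fun j hj => hg j (List.mem_cons_of_mem _ hj))
      have hsum : 0 ≤ (l.map w).sum := by
        refine List.sum_nonneg ?_
        intro x hx
        obtain ⟨j, hj, rfl⟩ := List.mem_map.mp hx
        exact (hw j (List.mem_cons_of_mem _ hj)).le
      refine ⟨g' (f i) • κ.c (w i / (w i + (l.map w).sum)) ((g' (f i))⁻¹ • y), ⟨(_, y), ⟨?_, hy⟩, rfl⟩, ?_⟩
      · exact ⟨by positivity, div_le_one_of_le₀ (by linarith) (by linarith)⟩
      · rw [Phi, hyP, hgi, mul_smul, mul_inv_rev, mul_smul, inv_smul_smul]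

/-- continuity -/
theorem Phi_cont (κ : Contr M) (g : ι → Γ) (l : List ι) {w : ι → ℝ} (hw : ∀ i, 0 ≤ w i)
    (hs : 0 < (l.map w).sum) : ContinuousWithinAt (Phi κ g l) {w | ∀ i, 0 ≤ w i} w := by
  induction l with
  | nil => simp at hs
  | cons i l ih =>
    have hsc : Continuous (fun w' : ι → ℝ => (l.map w').sum) := by
      clear ih hs
      induction l with
      | nil => simpa using continuous_const
      | cons j l ih2 =>
        simp only [List.map_cons, List.sum_cons]
        exact (continuous_apply j).add ih2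
    rw [List.map_cons, List.sum_cons] at hs
    have hr : ContinuousWithinAt (fun w' : ι → ℝ => w' i / (w' i + (l.map w').sum)) {w | ∀ i, 0 ≤ w i} w := by
      refine ContinuousAt.continuousWithinAt ?_
      exact (continuous_apply i).continuousAt.div ((continuous_apply i).add hsc).continuousAt hs.ne'
    rcases (sum_nonneg' hw l).eq_or_lt with h0 | h0
    · -- all the other weights are zero
      have h1 : w i / (w i + (l.map w).sum) = 1 := by
        rw [← h0, add_zero]
        exact div_self (by rw [← h0] at hs; linarith)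
      intro U hU
      rw [Filter.mem_map]
      obtain ⟨U', hU', hUo, hUm⟩ := mem_nhds_iff.mp hU
      have h2 : ({1} : Set ℝ) ×ˢ Km κ g l ⊆
          (fun x : ℝ × M => g i • κ.c x.1 ((g i)⁻¹ • x.2)) ⁻¹' U' := by
        rintro ⟨t, m⟩ ⟨ht, _⟩
        rw [mem_singleton_iff] at ht
        simp only at ht
        subst ht
        rw [mem_preimage]
        simp only [κ.one]
        rw [Phi, h1, κ.one] at hUm
        exact hUm
      obtain ⟨u, v, hu, _, h1u, hKv, huv⟩ := generalized_tube_lemma isCompact_singleton (Km_compact κ g l)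
        (hUo.preimage (step_cont κ (g i))) h2
      have h3 : ∀ᶠ w' in 𝓝[{w | ∀ i, 0 ≤ w i}] w, w' i / (w' i + (l.map w').sum) ∈ u := by
        have h6 : u ∈ 𝓝 (w i / (w i + (l.map w).sum)) := by
          rw [h1]
          exact hu.mem_nhds (h1u rfl)
        exact hr.eventually_mem h6
      filter_upwards [h3, self_mem_nhdsWithin] with w' hw' hw'2
      apply hU'
      have h4 := huv (Set.mk_mem_prod hw' (hKv (Phi_mem κ g hw'2 l)))
      exact h4
    · have h5 := ih h0
      exact (step_cont κ (g i)).continuousAt.comp_continuousWithinAt (hr.prodMk h5)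

end

end Pool.Agent.W2helper34.PA
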