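import Pool.Agent.W2helper34.PA.Milnor

/-!
# The map of the cone into `M`

`a v` (`v : V`) are elements of the group `Γ`. The map `hmap` sends the lattice point `p` of the cone to a point
near `gp a p • m₀`, where `gp a p` is the product of the powers `a v ^ p v`.
-/

set_option autoImplicit false
set_option linter.unusedSectionVars false

namespace Pool.Agent.W2helper34.PA

open Set Topology Filter

section

variable {Γ V : Type} [Group Γ] [Fintype V] [DecidableEq V]

/-- product of the powers `a v ^ p v` -/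
noncomputable def gp (a : V → Γ) (p : V → ℕ) : Γ :=
  ((Finset.univ.toList : List V).map (fun v => a v ^ p v)).prod

theorem list_gp_add (a : V → Γ) (p q : V → ℕ) (h : ∀ u v, Commute (a u ^ p u) (a v ^ q v)) (l : List V) :
    (l.map (fun v => a v ^ (p v + q v))).prod
      = (l.map (fun v => a v ^ p v)).prod * (l.map (fun v => a v ^ q v)).prod := by
  induction l with
  | nil => simp
  | cons v l ih =>
    simp only [List.map_cons, List.prod_cons]
    rw [ih, pow_add]
    have h1 : Commute (a v ^ q v) (l.map (fun v => a v ^ p v)).prod := by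
      refine Commute.list_prod_right _ _ ?_
      intro x hx
      obtain ⟨u, _, rfl⟩ := List.mem_map.mp hx
      exact (h u v).symm
    calc a v ^ p v * a v ^ q v * ((l.map (fun v => a v ^ p v)).prod * (l.map (fun v => a v ^ q v)).prod)
        = a v ^ p v * (a v ^ q v * (l.map (fun v => a v ^ p v)).prod) * (l.map (fun v => a v ^ q v)).prod := by
          group
      _ = a v ^ p v * ((l.map (fun v => a v ^ p v)).prod * a v ^ q v) * (l.map (fun v => a v ^ q v)).prod := by
          rw [h1.eq]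
      _ = _ := by group

theorem gp_add (a : V → Γ) (p q : V → ℕ) (h : ∀ u v, Commute (a u ^ p u) (a v ^ q v)) :
    gp a (fun v => p v + q v) = gp a p * gp a q := list_gp_add a p q h _

/-- the weights -/
noncomputable def wt (N : ℕ) (x : V → ℝ) (p : V → Fin (N + 1)) : ℝ := ∏ v, max 0 (1 - |x v - ((p v : ℕ) : ℝ)|)

theorem wt_nonneg (N : ℕ) (x : V → ℝ) (p : V → Fin (N + 1)) : 0 ≤ wt N x p :=
  Finset.prod_nonneg fun _ _ => le_max_left _ _

theorem wt_cont (N : ℕ) : Continuous (fun x : V → ℝ => wt N x) := by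
  refine continuous_pi fun p => ?_
  unfold wt
  refine continuous_finsetProd _ fun v _ => ?_
  exact continuous_const.max (continuous_const.sub ((continuous_apply v).sub continuous_const).abs)

theorem wt_ne {N : ℕ} {x : V → ℝ} {p : V → Fin (N + 1)} (h : wt N x p ≠ 0) (v : V) :
    |x v - ((p v : ℕ) : ℝ)| < 1 := by
  by_contra h1
  apply h
  refine Finset.prod_eq_zero (Finset.mem_univ v) ?_
  exact max_eq_left (by linarith [not_lt.mp h1])

theorem wt_pos {N : ℕ} {x : V → ℝ} (hx : ∀ v, 0 ≤ x v ∧ x v ≤ N) : ∃ p, 0 < wt N x p := by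
  refine ⟨fun v => ⟨⌊x v⌋₊, ?_⟩, ?_⟩
  · have := Nat.floor_le_of_le (hx v).2
    omega
  · refine Finset.prod_pos fun v _ => ?_
    refine lt_max_of_lt_right ?_
    have h1 := Nat.floor_le (hx v).1
    have h2 := Nat.lt_floor_add_one (x v)
    simp only
    rw [abs_of_nonneg (by linarith)]
    linarith

theorem wt_sum {N : ℕ} {x : V → ℝ} (hx : ∀ v, 0 ≤ x v ∧ x v ≤ N) :
    0 < (((Finset.univ : Finset (V → Fin (N + 1))).toList).map (wt N x)).sum := by
  classical
  rw [Finset.sum_map_toList]
  obtain ⟨p, hp⟩ := wt_pos hx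
  exact Finset.sum_pos' (fun p _ => wt_nonneg N x p) ⟨p, Finset.mem_univ p, hp⟩

/-- the lattice point near `x` -/
theorem wt_floor {N : ℕ} {x : V → ℝ} (hx : ∀ v, 0 ≤ x v) {p : V → Fin (N + 1)} (h : wt N x p ≠ 0) (v : V) :
    (p v : ℕ) = ⌊x v⌋₊ ∨ ((p v : ℕ) = ⌊x v⌋₊ + 1 ∧ 0 < x v) := by
  have h0 := wt_ne h v
  rw [abs_lt] at h0
  have h1 := Nat.floor_le (hx v)
  have h2 := Nat.lt_floor_add_one (x v)
  have h3 : ((p v : ℕ) : ℝ) < ((⌊x v⌋₊ + 2 : ℕ) : ℝ) := by push_cast; linarith
  have h4 : ((⌊x v⌋₊ : ℕ) : ℝ) < (((p v : ℕ) + 1 : ℕ) : ℝ) := by push_cast; linarith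
  have h5 : (p v : ℕ) < ⌊x v⌋₊ + 2 := by exact_mod_cast h3
  have h6 : ⌊x v⌋₊ < (p v : ℕ) + 1 := by exact_mod_cast h4
  rcases Nat.lt_or_ge ⌊x v⌋₊ (p v : ℕ) with h7 | h7
  · right
    have h8 : (p v : ℕ) = ⌊x v⌋₊ + 1 := by omega
    refine ⟨h8, ?_⟩
    rw [h8] at h0
    push_cast at h0
    have h9 : (0 : ℝ) ≤ (⌊x v⌋₊ : ℝ) := Nat.cast_nonneg _
    linarith [h0.1]
  · left; omega

variable {M : Type} [TopologicalSpace M] [MulAction Γ M] [ContinuousConstSMul Γ M]

/-- the map of the cone -/
noncomputable def hmap (κ : Contr M) (a : V → Γ) (N : ℕ) (x : V → ℝ) : M :=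
  Phi κ (fun p : V → Fin (N + 1) => gp a (fun v => (p v : ℕ))) Finset.univ.toList (wt N x)

theorem hmap_cont (κ : Contr M) (a : V → Γ) (N : ℕ) :
    ContinuousOn (hmap κ a N) {x | ∀ v, 0 ≤ x v ∧ x v ≤ N} := by
  intro x hx
  have h1 := Phi_cont κ (fun p : V → Fin (N + 1) => gp a (fun v => (p v : ℕ))) Finset.univ.toList
    (wt_nonneg N x) (wt_sum hx)
  exact h1.comp (wt_cont N).continuousAt.continuousWithinAt fun y _ => wt_nonneg N y

/-- the fundamental compact set -/
noncomputable def C0 (κ : Contr M) (a : V → Γ) : Set M :=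
  ⋃ l ∈ {l : List (V → Bool) | l.length ≤ Nat.card (V → Bool)},
    Km κ (fun ε : V → Bool => gp a (fun v => if ε v then 1 else 0)) l

theorem C0_compact (κ : Contr M) (a : V → Γ) : IsCompact (C0 κ a) := by
  refine Set.Finite.isCompact_biUnion (List.finite_length_le _ _) fun l _ => Km_compact _ _ _

theorem hmap_mem (κ : Contr M) (a : V → Γ) (N : ℕ) {x : V → ℝ} (hx : ∀ v, 0 ≤ x v ∧ x v ≤ N)
    (hc : ∀ u v, x u ≠ 0 → x v ≠ 0 → Commute (a u) (a v)) :
    ∃ y ∈ C0 κ a, hmap κ a N x = gp a (fun v => ⌊x v⌋₊) • y := by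
  classical
  set P : (V → Fin (N + 1)) → Bool := fun p => decide (wt N x p ≠ 0) with hP
  have h1 := (Phi_filter κ (fun p : V → Fin (N + 1) => gp a (fun v => (p v : ℕ))) (wt N x) P (by
    intro p hp
    by_contra h
    rw [hP] at hp
    simp [h] at hp) Finset.univ.toList).2
  have hmem : ∀ p ∈ (Finset.univ.toList : List (V → Fin (N + 1))).filter P, wt N x p ≠ 0 := by
    intro p hp
    have := (List.mem_filter.mp hp).2
    rw [hP] at this
    simpa using this
  set f : (V → Fin (N + 1)) → V → Bool := fun p v => decide ((p v : ℕ) = ⌊x v⌋₊ + 1) with hf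
  have hpf : ∀ p ∈ (Finset.univ.toList : List (V → Fin (N + 1))).filter P, ∀ v,
      (p v : ℕ) = ⌊x v⌋₊ + if f p v then 1 else 0 := by
    intro p hp v
    rcases wt_floor (fun v => (hx v).1) (hmem p hp) v with h | h
    · rw [hf]
      have h2 : ¬ (p v : ℕ) = ⌊x v⌋₊ + 1 := by omega
      simp [h]
    · rw [hf]
      simp [h.1]
  obtain ⟨y, hy, hyP⟩ := Phi_equi κ (fun p : V → Fin (N + 1) => gp a (fun v => (p v : ℕ)))
    (fun ε : V → Bool => gp a (fun v => if ε v then 1 else 0)) f (gp a (fun v => ⌊x v⌋₊)) (w := wt N x)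
    ((Finset.univ.toList : List (V → Fin (N + 1))).filter P) (by
      obtain ⟨p, hp⟩ := wt_pos hx
      refine List.ne_nil_of_mem (a := p) ?_
      rw [List.mem_filter]
      refine ⟨by simp, ?_⟩
      rw [hP]
      simpa using hp.ne')
    (fun p hp => lt_of_le_of_ne (wt_nonneg N x p) (hmem p hp).symm)
    (by
      intro p hp
      have h3 : (fun v => (p v : ℕ)) = fun v => ⌊x v⌋₊ + if f p v then 1 else 0 := by
        funext v; exact hpf p hp v
      rw [h3]
      refine gp_add a _ _ fun u v => ?_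
      by_cases h4 : ⌊x u⌋₊ = 0
      · rw [h4, pow_zero]; exact Commute.one_left _
      · by_cases h5 : f p v = true
        · refine (hc u v ?_ ?_).pow_pow _ _
          · intro h6
            rw [h6, Nat.floor_zero] at h4
            exact h4 rfl
          · rcases wt_floor (fun v => (hx v).1) (hmem p hp) v with h | h
            · exfalso
              rw [hf] at h5
              simp only [decide_eq_true_eq] at h5
              omega
            · exact h.2.ne'
        · simp only [h5, if_false, pow_zero, Bool.false_eq_true]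
          exact Commute.one_right _)
  refine ⟨y, ?_, ?_⟩
  · refine mem_biUnion (x := ((Finset.univ.toList : List (V → Fin (N + 1))).filter P).map f) ?_ hy
    rw [Set.mem_ofPred_eq, Nat.card_eq_fintype_card]
    refine List.Nodup.length_le_card ?_
    refine List.Nodup.map_on ?_ ((Finset.nodup_toList _).filter _)
    intro p hp q hq hpq
    funext v
    apply Fin.ext
    rw [hpf p hp v, hpf q hq v, hpq]
  · rw [hmap, ← h1, hyP]

end

end Pool.Agent.W2helper34.PA
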